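import Pool.Agent.H91R2.EndCan.Table

/-!
# The set of tables with cancellative endomorphism semigroup is coanalytic-complete
-/

open MeasureTheory Topology Filter

namespace H91R2.EndCan

theorem path_length (x : ℕ → ℕ) (n : ℕ) : (path x n).length = n := by
  induction n with
  | zero => rfl
  | succ n ih => simp [path, ih]

theorem path_eq {x z : ℕ → ℕ} {n : ℕ} (h : path x n = path z n) : ∀ i < n, x i = z i := by
  induction n with
  | zero => intro i hi; omega
  | succ n ih =>
    intro i hi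
    have h1 : x n :: path x n = z n :: path z n := h
    have h2 := List.cons.inj h1
    rcases Nat.lt_or_ge i n with h3 | h3
    · exact ih h2.2 i h3
    · have : i = n := by omega
      rw [this]; exact h2.1

theorem isOpen_path (k : ℕ) : ∀ (B : List ℕ → Set (ℕ → ℕ)), (∀ s, IsOpen (B s)) →
    IsOpen {x | x ∈ B (path x k)} := by
  induction k with
  | zero => intro B hB; exact hB []
  | succ k ih =>
    intro B hB
    have h1 : {x : ℕ → ℕ | x ∈ B (path x (k + 1))} =
        ⋃ n : ℕ, {x | x k = n} ∩ {x | x ∈ B (n :: path x k)} := by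
      ext x
      simp only [Set.mem_ofPred_eq, Set.mem_iUnion, Set.mem_inter_iff]
      constructor
      · intro h; exact ⟨x k, rfl, h⟩
      · rintro ⟨n, rfl, h⟩; exact h
    rw [h1]
    refine isOpen_iUnion fun n => IsOpen.inter ?_ (ih (fun s => B (n :: s)) fun s => hB _)
    exact IsOpen.preimage (continuous_apply (A := fun _ : ℕ => ℕ) k) (isOpen_discrete ({n} : Set ℕ))

theorem tree_rep (A : Set (ℕ → ℕ)) (hA : AnalyticSet A) :
    ∃ T : Set (List ℕ × List ℕ), ∀ x, x ∈ A ↔ ∃ y, ∀ n, (path x (n + 1), path y (n + 1)) ∈ T := by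
  rw [AnalyticSet] at hA
  rcases hA with rfl | ⟨f, hf, rfl⟩
  · exact ⟨∅, fun x => ⟨fun h => h.elim, fun ⟨y, hy⟩ => (hy 0).elim⟩⟩
  refine ⟨{p | ∃ z n, p = (path (f z) (n + 1), path z (n + 1))}, fun x => ⟨?_, ?_⟩⟩
  · rintro ⟨y, rfl⟩
    exact ⟨y, fun n => ⟨y, n, rfl⟩⟩
  · rintro ⟨y, hy⟩
    have h1 : ∀ n, ∃ z, path x (n + 1) = path (f z) (n + 1) ∧ path y (n + 1) = path z (n + 1) := by
      intro n
      obtain ⟨z, m, h⟩ := hy n
      have h2 := congrArg Prod.fst h
      have h3 := congrArg Prod.snd h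
      simp only at h2 h3
      have h4 := congrArg List.length h2
      rw [path_length, path_length] at h4
      have h5 : m = n := by omega
      subst h5
      exact ⟨z, h2, h3⟩
    choose z hz hz' using h1
    have h2 : Tendsto z atTop (𝓝 y) := by
      rw [tendsto_pi_nhds]
      intro i
      refine tendsto_const_nhds.congr' ?_
      filter_upwards [eventually_ge_atTop i] with n hn
      exact path_eq (hz' n) i (by omega)
    have h3 : Tendsto (fun n => f (z n)) atTop (𝓝 x) := by
      rw [tendsto_pi_nhds]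
      intro i
      refine tendsto_const_nhds.congr' ?_
      filter_upwards [eventually_ge_atTop i] with n hn
      exact path_eq (hz n) i (by omega)
    have h4 : Tendsto (fun n => f (z n)) atTop (𝓝 (f y)) := (hf.tendsto y).comp h2
    exact ⟨y, tendsto_nhds_unique h4 h3⟩

/-- **Completeness.** -/
theorem complete (A : Set (ℕ → ℕ)) (hA : AnalyticSet A) :
    ∃ Φ : (ℕ → ℕ) → (ℕ → ℕ → ℕ), Continuous Φ ∧ ∀ x, IsCS (Φ x) ∧ ¬ IsCancelTab (Φ x) ∧
      (∀ n, Φ x n n ≠ n) ∧ (Φ x ∈ CanTab ↔ x ∉ A) ∧ (x ∉ A → OnlyPowers (Φ x)) := by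
  obtain ⟨T, hT⟩ := tree_rep A hA
  let W : (ℕ → ℕ) → Set (List ℕ) := fun x => {u | (path x u.length, u) ∈ T}
  have hW : ∀ s, IsClopen {x | s ∈ W x} := by
    intro s
    constructor
    · rw [← isOpen_compl_iff]
      have := isOpen_path s.length (fun t => {_x | (t, s) ∉ T}) (fun t => isOpen_const)
      exact this
    · exact isOpen_path s.length (fun t => {_x | (t, s) ∈ T}) (fun t => isOpen_const)
  have hb : ∀ x, (∃ y, IsBranch (W x) y) ↔ x ∈ A := by
    intro x
    rw [hT x]
    refine exists_congr fun y => forall_congr' fun n => ?_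
    show (path x (path y (n + 1)).length, path y (n + 1)) ∈ T ↔ _
    rw [path_length]
  refine ⟨fun x => tab (W x), continuous_tab W hW, fun x => ⟨tab_isCS _, tab_not_cancel _,
    tab_no_idem _, ?_, ?_⟩⟩
  · rw [tab_mem, hb]
  · intro h
    exact tab_onlyPowers _ (by rw [hb]; exact h)

/-- the trees coded by `x`, both in the parameter and in the argument -/
def Wx (x : ℕ → ℕ) : Set (List ℕ) := {u | x (Encodable.encode (path x u.length, u)) = 0}

theorem Wx_clopen (s : List ℕ) : IsClopen {x | s ∈ Wx x} := by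
  have h : ∀ (P : Set ℕ), IsOpen {x : ℕ → ℕ | x (Encodable.encode (path x s.length, s)) ∈ P} := by
    intro P
    exact isOpen_path s.length (fun t => {x | x (Encodable.encode (t, s)) ∈ P})
      (fun t => (isOpen_discrete P).preimage (continuous_apply _))
  constructor
  · rw [← isOpen_compl_iff]
    exact h {0}ᶜ
  · exact h {0}

theorem not_analytic_aux (D : Set (ℕ → ℕ → ℕ))
    (hD : ∀ x, tab (Wx x) ∈ D ↔ ¬ ∃ y, IsBranch (Wx x) y) : ¬ AnalyticSet D := by
  intro h
  have h1 := h.preimage (continuous_tab Wx Wx_clopen)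
  obtain ⟨T, hT⟩ := tree_rep _ h1
  classical
  let x : ℕ → ℕ := fun k => match (Encodable.decode k : Option (List ℕ × List ℕ)) with
    | some p => if p ∈ T then 0 else 1
    | none => 1
  have hx : ∀ p, x (Encodable.encode p) = 0 ↔ p ∈ T := by
    intro p
    simp only [x, Encodable.encodek]
    split_ifs with h <;> simp [h]
  have h2 : (∃ y, IsBranch (Wx x) y) ↔ ∃ y, ∀ n, (path x (n + 1), path y (n + 1)) ∈ T := by
    refine exists_congr fun y => forall_congr' fun n => ?_
    show x (Encodable.encode (path x (path y (n + 1)).length, path y (n + 1))) = 0 ↔ _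
    rw [path_length, hx]
  have h3 := hT x
  have h4 : x ∈ (fun x => tab (Wx x)) ⁻¹' D ↔ ¬ ∃ y, IsBranch (Wx x) y := hD x
  rw [h4, h2] at h3
  exact iff_not_self h3.symm

theorem canTab_not_analytic : ¬ AnalyticSet CanTab :=
  not_analytic_aux _ fun x => tab_mem (Wx x)

theorem canTab_inter_not_analytic :
    ¬ AnalyticSet (CanTab ∩ {m | ¬ IsCancelTab m}) := by
  apply not_analytic_aux
  intro x
  rw [Set.mem_inter_iff, tab_mem]
  exact ⟨fun h => h.1, fun h => ⟨h, tab_not_cancel _⟩⟩

theorem powTab_not_analytic :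
    ¬ AnalyticSet {m | IsCS m ∧ (∀ n, m n n ≠ n) ∧ OnlyPowers m} := by
  apply not_analytic_aux
  intro x
  constructor
  · rintro ⟨-, -, h⟩
    have h1 : EndPowers (TS (Wx x)) := by
      constructor
      · intro f
        obtain ⟨n, hn⟩ := h _ (isEndo_of_hom (numW (Wx x)) f)
        refine ⟨n, fun z => ?_⟩
        have h2 := hn (numW (Wx x) z)
        have h3 := tpw_tr (numW (Wx x)) z n
        simp only [Equiv.symm_apply_apply] at h2
        have h4 : tpw (tab (Wx x)) (numW (Wx x) z) n = numW (Wx x) (pw z n) := h3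
        rw [h4] at h2
        exact (numW (Wx x)).injective h2
      · intro m n h
        have h1 := congrArg Sem.deg (h (Sem.vtx _ (Sum.inr 0)))
        rw [Sem.deg_pw, Sem.deg_pw, Sem.deg_vtx] at h1
        omega
    exact (TS_endPowers _).mp h1
  · intro h
    exact ⟨tab_isCS _, tab_no_idem _, tab_onlyPowers _ h⟩

section coanalytic

theorem continuous_eval₁ {X : Type} [TopologicalSpace X] {F : X → ℕ → ℕ} {k : X → ℕ}
    (hF : Continuous F) (hk : Continuous k) : Continuous (fun x => F x (k x)) := by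
  have h1 : Continuous (fun p : (ℕ → ℕ) × ℕ => p.1 p.2) :=
    continuous_prod_of_discrete_right.mpr fun b => continuous_apply b
  exact h1.comp (hF.prodMk hk)

theorem continuous_eval₂ {X : Type} [TopologicalSpace X] {F : X → ℕ → ℕ → ℕ} {k l : X → ℕ}
    (hF : Continuous F) (hk : Continuous k) (hl : Continuous l) :
    Continuous (fun x => F x (k x) (l x)) := by
  have h1 : Continuous (fun p : (ℕ → ℕ → ℕ) × ℕ => p.1 p.2) :=
    continuous_prod_of_discrete_right.mpr fun b => continuous_apply b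
  exact continuous_eval₁ (h1.comp (hF.prodMk hk)) hl

theorem isClosed_isCS : IsClosed {m : ℕ → ℕ → ℕ | IsCS m} := by
  have h1 : {m : ℕ → ℕ → ℕ | IsCS m} = (⋂ a, ⋂ b, {m | m a b = m b a}) ∩
      ⋂ a, ⋂ b, ⋂ c, {m | m (m a b) c = m a (m b c)} := by
    ext m
    simp [IsCS]
  have he : ∀ a b : ℕ, Continuous (fun m : ℕ → ℕ → ℕ => m a b) := fun a b =>
    (continuous_apply b).comp (continuous_apply a)
  rw [h1]
  refine IsClosed.inter (isClosed_iInter fun a => isClosed_iInter fun b => ?_)
    (isClosed_iInter fun a => isClosed_iInter fun b => isClosed_iInter fun c => ?_)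
  · exact isClosed_eq (he a b) (he b a)
  · exact isClosed_eq (continuous_eval₂ continuous_id (he a b) continuous_const)
      (continuous_eval₂ continuous_id continuous_const (he b c))

/-- the space of a table and three maps -/
abbrev Sp : Type := (ℕ → ℕ → ℕ) × (ℕ → ℕ) × (ℕ → ℕ) × (ℕ → ℕ)

instance : PolishSpace Sp where

instance : OpensMeasurableSpace (ℕ → ℕ → ℕ) := inferInstance

theorem isClosed_isEndo {F : Sp → ℕ → ℕ} (hF : Continuous F) :
    IsClosed {p : Sp | IsEndo p.1 (F p)} := by
  have h1 : {p : Sp | IsEndo p.1 (F p)} = ⋂ a, ⋂ b, {p | F p (p.1 a b) = p.1 (F p a) (F p b)} := by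
    ext p
    simp [IsEndo]
  rw [h1]
  have he : ∀ a b : ℕ, Continuous (fun p : Sp => p.1 a b) := fun a b =>
    (continuous_apply b).comp ((continuous_apply a).comp continuous_fst)
  have hFa : ∀ a, Continuous (fun p => F p a) := fun a => (continuous_apply a).comp hF
  refine isClosed_iInter fun a => isClosed_iInter fun b => ?_
  exact isClosed_eq (continuous_eval₁ hF (he a b)) (continuous_eval₂ continuous_fst (hFa a) (hFa b))

theorem canTab_coanalytic : AnalyticSet CanTabᶜ := by
  let Z : Set Sp := {p | ¬ IsCS p.1} ∪ ({p | IsEndo p.1 p.2.1} ∩ {p | IsEndo p.1 p.2.2.1} ∩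
    {p | IsEndo p.1 p.2.2.2} ∩ {p | ∀ x, p.1 (p.2.1 x) (p.2.2.1 x) = p.1 (p.2.1 x) (p.2.2.2 x)} ∩
    {p | p.2.2.1 ≠ p.2.2.2})
  have c1 : Continuous (fun p : Sp => p.2.1) := continuous_fst.comp continuous_snd
  have c2 : Continuous (fun p : Sp => p.2.2.1) :=
    continuous_fst.comp (continuous_snd.comp continuous_snd)
  have c3 : Continuous (fun p : Sp => p.2.2.2) :=
    continuous_snd.comp (continuous_snd.comp continuous_snd)
  letI : MeasurableSpace Sp := borel Sp
  haveI : BorelSpace Sp := ⟨rfl⟩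
  have hmeas : MeasurableSet Z := by
    refine MeasurableSet.union ?_ (MeasurableSet.inter (MeasurableSet.inter (MeasurableSet.inter
      (MeasurableSet.inter ?_ ?_) ?_) ?_) ?_)
    · have : IsClosed {p : Sp | IsCS p.1} := isClosed_isCS.preimage continuous_fst
      exact this.isOpen_compl.measurableSet
    · exact (isClosed_isEndo c1).measurableSet
    · exact (isClosed_isEndo c2).measurableSet
    · exact (isClosed_isEndo c3).measurableSet
    · have h1 : {p : Sp | ∀ x, p.1 (p.2.1 x) (p.2.2.1 x) = p.1 (p.2.1 x) (p.2.2.2 x)} =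
          ⋂ x, {p : Sp | p.1 (p.2.1 x) (p.2.2.1 x) = p.1 (p.2.1 x) (p.2.2.2 x)} := by
        ext p; simp
      rw [h1]
      refine (isClosed_iInter fun x => ?_).measurableSet
      exact isClosed_eq
        (continuous_eval₂ continuous_fst ((continuous_apply x).comp c1) ((continuous_apply x).comp c2))
        (continuous_eval₂ continuous_fst ((continuous_apply x).comp c1) ((continuous_apply x).comp c3))
    · exact (isClosed_eq c2 c3).isOpen_compl.measurableSet
  have h2 : CanTabᶜ = Prod.fst '' Z := by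
    ext m
    constructor
    · intro hm
      by_cases hcs : IsCS m
      · have h3 : ¬ ∀ f g h, IsEndo m f → IsEndo m g → IsEndo m h →
            (∀ x, m (f x) (g x) = m (f x) (h x)) → g = h := fun h => hm ⟨hcs, h⟩
        push Not at h3
        obtain ⟨f, g, h, hf, hg, hh, hx, hne⟩ := h3
        exact ⟨(m, f, g, h), Or.inr ⟨⟨⟨⟨hf, hg⟩, hh⟩, hx⟩, hne⟩, rfl⟩
      · exact ⟨(m, id, id, id), Or.inl hcs, rfl⟩
    · rintro ⟨p, hp, rfl⟩ ⟨hcs, hcan⟩
      rcases hp with hp | ⟨⟨⟨⟨hf, hg⟩, hh⟩, hx⟩, hne⟩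
      · exact hp hcs
      · exact hne (hcan _ _ _ hf hg hh hx)
  rw [h2]
  exact hmeas.analyticSet.image_of_continuous continuous_fst

theorem canTab_not_borel : ¬ @MeasurableSet _ (borel (ℕ → ℕ → ℕ)) CanTab := by
  intro h
  letI : MeasurableSpace (ℕ → ℕ → ℕ) := borel _
  haveI : BorelSpace (ℕ → ℕ → ℕ) := ⟨rfl⟩
  exact canTab_not_analytic h.analyticSet

theorem canTab_inter_not_borel :
    ¬ @MeasurableSet _ (borel (ℕ → ℕ → ℕ)) (CanTab ∩ {m | ¬ IsCancelTab m}) := by
  intro h
  letI : MeasurableSpace (ℕ → ℕ → ℕ) := borel _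
  haveI : BorelSpace (ℕ → ℕ → ℕ) := ⟨rfl⟩
  exact canTab_inter_not_analytic h.analyticSet

end coanalytic

end H91R2.EndCan
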