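import Pool.Agent.H91R2.EndCan.Struct
import Pool.Agent.H91R2.EndRat.Count

/-!
# Counting isomorphism types
-/

namespace H91R2.EndCan

open EndRat (Rel isoCount isoSetoid isoCount_eq SetHom)

universe u

section

variable {A : Type u}

/-- relations together with the diagonal in place `0` -/
def RR (R : ℕ → A → A → Prop) : ℕ × A × A → Prop
  | (0, a, b) => a = b
  | (k + 1, a, b) => R k a b

/-- the labelled graph of a sequence of relations -/
def relGraph (R : ℕ → A → A → Prop) : LGraph A {p : ℕ × A × A // RR R p} where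
  lab i := i.1.1
  src i := i.1.2.1
  tgt i := i.1.2.2

theorem relGraph_diag (R : ℕ → A → A → Prop) : (relGraph R).Diag := fun a =>
  ⟨⟨(0, a, a), rfl⟩, rfl, rfl, rfl⟩

theorem relGraph_simple (R : ℕ → A → A → Prop) : (relGraph R).Simple := by
  intro i j h1 h2 h3
  apply Subtype.ext
  exact Prod.ext h1 (Prod.ext h2 h3)

theorem relGraph_hom {R R' : ℕ → A → A → Prop} {f : A → A} {g}
    (h : IsLHom (relGraph R) (relGraph R') f g) (k : ℕ) (a b : A) (hab : R k a b) :
    R' k (f a) (f b) := by
  obtain ⟨h1, h2, h3⟩ := h ⟨(k + 1, a, b), hab⟩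
  have h4 := (g ⟨(k + 1, a, b), hab⟩).2
  have h5 : (g ⟨(k + 1, a, b), hab⟩).1 = (k + 1, f a, f b) := Prod.ext h1 (Prod.ext h2 h3)
  rw [h5] at h4
  exact h4

variable [LinearOrder A] [WellFoundedLT A] [Nonempty A]

theorem rel_hom_id {X X' : Set A} {f : A → A}
    (h : ∀ k a b, Rel X k a b → Rel X' k (f a) (f b)) : f = id := by
  classical
  have hD : SetHom X X' (fun a => ({f a} : Finset A)) := by
    constructor
    · intro k a b hab x hx
      rw [Finset.mem_singleton] at hx
      subst hx
      exact ⟨f b, Finset.mem_singleton_self _, h k a b hab⟩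
    · intro k a b hab y hy
      rw [Finset.mem_singleton] at hy
      subst hy
      exact ⟨f a, Finset.mem_singleton_self _, h k a b hab⟩
  funext a
  have h1 := hD.eq_singleton (fun a => Finset.singleton_nonempty _) a
  exact Finset.singleton_injective h1

theorem relGraph_rigid (X : Set A) : (relGraph (Rel X)).Rigid := fun _ _ h =>
  rel_hom_id (relGraph_hom h)

/-- the semigroup attached to a subset -/
abbrev RS (X : Set A) : Type u := Sem (fam (relGraph (Rel X)))

theorem RS_endPowers (X : Set A) : EndPowers (RS X) :=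
  (coding_graph _ (relGraph_diag _) (relGraph_simple _)).2.mpr (relGraph_rigid X)

theorem sub_of_hom {X X' : Set A} {F G}
    (h : IsTripHom (fam (relGraph (Rel X))) (fam (relGraph (Rel X'))) F G) : X ⊆ X' := by
  obtain ⟨f, g, hfg, -⟩ := trip_lhom (relGraph_diag _) h
  have h1 : f = id := rel_hom_id (relGraph_hom hfg)
  intro a ha
  have h2 : Rel X 1 a a := ⟨rfl, ha⟩
  have h3 := relGraph_hom hfg 1 a a h2
  rw [h1] at h3
  exact h3.2

theorem RS_iso {X X' : Set A} (h : Nonempty (RS X ≃* RS X')) : X = X' := by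
  obtain ⟨φ⟩ := h
  obtain ⟨⟨F, G, h1⟩, ⟨F', G', h2⟩⟩ := iso_trip φ
  exact Set.Subset.antisymm (sub_of_hom h1) (sub_of_hom h2)

end

theorem mk_RS {A : Type u} [Infinite A] [LinearOrder A] [WellFoundedLT A] (X : Set A) :
    Cardinal.mk (RS X) = Cardinal.mk A := by
  have hA : Cardinal.aleph0 ≤ Cardinal.mk A := Cardinal.aleph0_le_mk A
  apply le_antisymm
  · have h1 : Cardinal.mk (RS X) ≤ Cardinal.mk (Pre (A ⊕ ℕ)
        ({p : ℕ × A × A // RR (Rel X) p} ⊕ Option ℕ)) := Cardinal.mk_subtype_le _
    refine h1.trans ?_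
    have h2 : Cardinal.mk (ℕ × A × A) = Cardinal.mk A := by
      rw [Cardinal.mk_prod, Cardinal.mk_prod]
      simp only [Cardinal.lift_uzero, Cardinal.lift_id, Cardinal.mk_nat, Cardinal.lift_aleph0]
      rw [Cardinal.mul_eq_self hA, Cardinal.aleph0_mul_eq hA]
    have h3 : Cardinal.mk {p : ℕ × A × A // RR (Rel X) p} ≤ Cardinal.mk A :=
      (Cardinal.mk_subtype_le _).trans h2.le
    have hN : Cardinal.lift.{u} (Cardinal.mk (Option ℕ)) ≤ Cardinal.mk A := by
      have : Cardinal.mk (Option ℕ) ≤ Cardinal.aleph0 := Cardinal.mk_le_aleph0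
      have h := Cardinal.lift_le.{u}.mpr this
      rw [Cardinal.lift_aleph0] at h
      exact h.trans hA
    have hN' : Cardinal.lift.{u} (Cardinal.mk ℕ) ≤ Cardinal.mk A := by
      have : Cardinal.mk ℕ ≤ Cardinal.aleph0 := Cardinal.mk_le_aleph0
      have h := Cardinal.lift_le.{u}.mpr this
      rw [Cardinal.lift_aleph0] at h
      exact h.trans hA
    have h4 : Cardinal.mk ({p : ℕ × A × A // RR (Rel X) p} ⊕ Option ℕ) ≤ Cardinal.mk A := by
      rw [Cardinal.mk_sum, Cardinal.lift_uzero]
      exact (add_le_add h3 hN).trans (Cardinal.add_eq_self hA).le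
    have h5 : Cardinal.mk (A ⊕ ℕ) ≤ Cardinal.mk A := by
      rw [Cardinal.mk_sum, Cardinal.lift_uzero]
      exact (add_le_add le_rfl hN').trans (Cardinal.add_eq_self hA).le
    have h6 : Cardinal.mk (Option ((A ⊕ ℕ) ⊕ ({p : ℕ × A × A // RR (Rel X) p} ⊕ Option ℕ))) ≤
        Cardinal.mk A := by
      rw [Cardinal.mk_option, Cardinal.mk_sum]
      simp only [Cardinal.lift_id]
      have h7 : (1 : Cardinal.{u}) ≤ Cardinal.mk A := Cardinal.one_le_aleph0.trans hA
      refine (add_le_add (add_le_add h5 h4) h7).trans ?_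
      rw [Cardinal.add_eq_self hA, Cardinal.add_eq_self hA]
    rw [Cardinal.mk_prod, Cardinal.lift_uzero]
    exact (mul_le_mul' hN' h6).trans (Cardinal.mul_eq_self hA).le
  · refine Cardinal.mk_le_of_injective (f := fun a => Sem.vtx _ (Sum.inl a)) ?_
    intro a b h
    exact Sum.inl_injective (Sem.vtx_injective h)

section transport

universe v

variable {S : Type u} {T : Type v} [CommSemigroup S] [CommSemigroup T]

theorem EndPowers.of_equiv (e : S ≃* T) (h : EndPowers S) : EndPowers T := by
  constructor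
  · intro f
    obtain ⟨n, hn⟩ := h.1 ((EndRat.conjEnd e).symm f)
    refine ⟨n, fun x => ?_⟩
    have h1 := hn (e.symm x)
    have h2 : (EndRat.conjEnd e).symm f (e.symm x) = e.symm (f x) := by
      show e.symm (f (e (e.symm x))) = _
      rw [e.apply_symm_apply]
    rw [h2] at h1
    have h3 := congrArg e h1
    rw [e.apply_symm_apply] at h3
    have h4 := map_pw (e : S →ₙ* T) (e.symm x) n
    have h5 : (e : S →ₙ* T) (e.symm x) = x := e.apply_symm_apply x
    rw [h5] at h4
    exact h3.trans h4
  · intro m n hmn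
    apply h.2
    intro x
    apply e.injective
    have h4 := map_pw (e : S →ₙ* T) x m
    have h5 := map_pw (e : S →ₙ* T) x n
    exact h4.trans ((hmn _).trans h5.symm)

theorem Cancel.of_equiv (e : S ≃* T) (h : Cancel T) : Cancel S := by
  intro x y z hxyz
  have := h (e x) (e y) (e z) (by rw [← map_mul, ← map_mul, hxyz])
  exact e.injective this

end transport

theorem Sem.no_idem {Y E : Type u} {e : E → Y × Y × Y} (x : Sem e) : x * x ≠ x := by
  intro h
  have h1 := congrArg Sem.deg h
  rw [Sem.deg_mul] at h1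
  have := Sem.deg_pos x
  omega

/-- In every infinite cardinality there is the maximal number of isomorphism types of
non-cancellative idempotent-free commutative semigroups whose only endomorphisms are the power
maps. -/
theorem isoCount_powers (A : Type u) [Infinite A] :
    isoCount A (fun s => @EndPowers A s ∧ ¬ @Cancel A s.toMul ∧ ∀ x, s.mul x x ≠ x) =
      2 ^ Cardinal.mk A := by
  classical
  obtain ⟨r, hr⟩ := exists_wellFoundedLT A
  let _ := r
  have : WellFoundedLT A := hr
  exact isoCount_eq A (fun S s => @EndPowers S s ∧ ¬ @Cancel S s.toMul ∧ ∀ x, s.mul x x ≠ x)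
    (fun S T s t e h => ⟨@EndPowers.of_equiv S T s t e h.1,
      fun hc => h.2.1 (@Cancel.of_equiv S T s t e hc), fun x hx => by
        apply h.2.2 (e.symm x)
        have h1 : e.symm (t.mul x x) = s.mul (e.symm x) (e.symm x) := e.symm.map_mul' x x
        rw [← h1, hx]⟩)
    (fun X => RS X) (fun X => inferInstance) (fun X => mk_RS X)
    (fun X => ⟨RS_endPowers X, sem_fam_not_cancel _, fun x => Sem.no_idem x⟩)
    (fun X Y h => RS_iso h)

end H91R2.EndCan
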