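import Mathlib

/-!
# Commutative semigroups with cancellative pointwise endomorphism semigroup: definitions
-/

namespace H91R2.EndCan

universe u v

/-- `End(S)` with the pointwise product is cancellative. -/
def EndCancel (S : Type u) [CommSemigroup S] : Prop :=
  ∀ f g h : S →ₙ* S, f * g = f * h → g = h

/-- `S` is cancellative. -/
def Cancel (S : Type u) [Mul S] : Prop := ∀ x y z : S, x * y = x * z → y = z

/-- `pw x n = x ^ (n + 1)`. -/
def pw {S : Type u} [Mul S] (x : S) : ℕ → S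
  | 0 => x
  | (n + 1) => pw x n * x

/-- Every endomorphism of `S` is one of the power maps `x ↦ x ^ n`, `n ≥ 1`, and these are
pairwise different. -/
def EndPowers (S : Type u) [CommSemigroup S] : Prop :=
  (∀ f : S →ₙ* S, ∃ n : ℕ, ∀ x, f x = pw x n) ∧
    ∀ m n : ℕ, (∀ x : S, pw x m = pw x n) → m = n

theorem endCancel_iff (S : Type u) [CommSemigroup S] :
    EndCancel S ↔ ∀ f g h : S →ₙ* S, (∀ x, f x * g x = f x * h x) → ∀ x, g x = h x := by
  constructor
  · intro H f g h hx x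
    have h1 : f * g = f * h := by ext y; exact hx y
    rw [H f g h h1]
  · intro H f g h hx
    ext x
    refine H f g h (fun y => ?_) x
    have := congrArg (fun k : S →ₙ* S => k y) hx
    exact this

section sem

variable {Y : Type u} {E : Type u}

/-- coordinates of a triple -/
def coord : ℕ → Y × Y × Y → Y
  | 0, r => r.1
  | 1, r => r.2.1
  | _, r => r.2.2

/-- underlying pairs (degree, payload) -/
abbrev Pre (Y E : Type u) := ℕ × Option (Y ⊕ E)

/-- the admissible pairs -/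
def Valid : Pre Y E → Prop
  | (d, some (Sum.inl _)) => d = 8 ∨ d = 21 ∨ d = 22 ∨ d = 23
  | (d, some (Sum.inr _)) => d = 9
  | (d, none) => 12 ≤ d ∧ d ≠ 21 ∧ d ≠ 22 ∧ d ≠ 23

/-- projection of payloads -/
def proj (e : E → Y × Y × Y) (j : ℕ) : Y ⊕ E → Y ⊕ E
  | Sum.inl y => Sum.inl y
  | Sum.inr r => Sum.inl (coord j (e r))

/-- payload of a product -/
def pay (e : E → Y × Y × Y) (a b : Pre Y E) : Option (Y ⊕ E) :=
  if a.1 = 8 ∧ 13 ≤ b.1 ∧ b.1 ≤ 15 then a.2
  else if b.1 = 8 ∧ 13 ≤ a.1 ∧ a.1 ≤ 15 then b.2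
  else if a.1 = 9 ∧ 12 ≤ b.1 ∧ b.1 ≤ 14 then a.2.map (proj e (b.1 - 12))
  else if b.1 = 9 ∧ 12 ≤ a.1 ∧ a.1 ≤ 14 then b.2.map (proj e (a.1 - 12))
  else none

/-- The carrier of the semigroup attached to a family `e : E → Y × Y × Y` of triples. -/
def Sem (_e : E → Y × Y × Y) : Type u := {a : Pre Y E // Valid a}

variable {e : E → Y × Y × Y}

/-- degree -/
def Sem.deg (x : Sem e) : ℕ := x.1.1

theorem valid_cases {a : Pre Y E} (h : Valid a) :
    (∃ y, a = (8, some (Sum.inl y))) ∨ (∃ r, a = (9, some (Sum.inr r))) ∨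
    (∃ j y, j < 3 ∧ a = (21 + j, some (Sum.inl y))) ∨
    (12 ≤ a.1 ∧ a.1 ≠ 21 ∧ a.1 ≠ 22 ∧ a.1 ≠ 23 ∧ a = (a.1, none)) := by
  obtain ⟨d, w⟩ := a
  rcases w with _ | (y | r)
  · right; right; right
    exact ⟨h.1, h.2.1, h.2.2.1, h.2.2.2, rfl⟩
  · rcases h with h | h | h | h
    · left; exact ⟨y, by rw [h]⟩
    · right; right; left; exact ⟨0, y, by omega, by rw [h]⟩
    · right; right; left; exact ⟨1, y, by omega, by rw [h]⟩
    · right; right; left; exact ⟨2, y, by omega, by rw [h]⟩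
  · right; left
    have h' : d = 9 := h
    exact ⟨r, by rw [h']⟩

theorem valid_deg {a : Pre Y E} (h : Valid a) : a.1 = 8 ∨ a.1 = 9 ∨ 12 ≤ a.1 := by
  rcases valid_cases h with ⟨y, rfl⟩ | ⟨r, rfl⟩ | ⟨j, y, hj, rfl⟩ | h
  · left; rfl
  · right; left; rfl
  · right; right; simp; omega
  · right; right; exact h.1

theorem valid_mul {a b : Pre Y E} (ha : Valid a) (hb : Valid b) :
    Valid (a.1 + b.1, pay e a b) := by
  have h1 := valid_deg ha
  have h2 := valid_deg hb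
  unfold pay
  split_ifs with c1 c2 c3 c4
  · rcases valid_cases ha with ⟨y, rfl⟩ | ⟨r, rfl⟩ | ⟨j, y, hj, rfl⟩ | h
    · simp only [Valid]; simp only at c1; omega
    · simp at c1
    · simp only at c1; omega
    · omega
  · rcases valid_cases hb with ⟨y, rfl⟩ | ⟨r, rfl⟩ | ⟨j, y, hj, rfl⟩ | h
    · simp only [Valid]; simp only at c2; omega
    · simp at c2
    · simp only at c2; omega
    · omega
  · rcases valid_cases ha with ⟨y, rfl⟩ | ⟨r, rfl⟩ | ⟨j, y, hj, rfl⟩ | h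
    · simp at c3
    · simp only [Option.map_some, proj, Valid]; simp only at c3; omega
    · simp only at c3; omega
    · omega
  · rcases valid_cases hb with ⟨y, rfl⟩ | ⟨r, rfl⟩ | ⟨j, y, hj, rfl⟩ | h
    · simp at c4
    · simp only [Option.map_some, proj, Valid]; simp only at c4; omega
    · simp only at c4; omega
    · omega
  · simp only [Valid]; omega

theorem pay_comm {a b : Pre Y E} : pay e a b = pay e b a := by
  unfold pay
  split_ifs <;> first | rfl | omega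

theorem pay_of_ge_left {a b : Pre Y E} (h : 16 ≤ a.1) : pay e a b = none := by
  unfold pay
  rw [if_neg (by omega), if_neg (by omega), if_neg (by omega), if_neg (by omega)]

theorem pay_of_ge_right {a b : Pre Y E} (h : 16 ≤ b.1) : pay e a b = none := by
  rw [pay_comm]; exact pay_of_ge_left h

instance : CommSemigroup (Sem e) where
  mul x y := ⟨(x.1.1 + y.1.1, pay e x.1 y.1), valid_mul x.2 y.2⟩
  mul_assoc x y z := by
    apply Subtype.ext
    have hx := valid_deg x.2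
    have hy := valid_deg y.2
    have hz := valid_deg z.2
    refine Prod.ext (Nat.add_assoc _ _ _) ?_
    have h1 : pay e (x.1.1 + y.1.1, pay e x.1 y.1) z.1 = none :=
      pay_of_ge_left (by simp only; omega)
    have h2 : pay e x.1 (y.1.1 + z.1.1, pay e y.1 z.1) = none :=
      pay_of_ge_right (by simp only; omega)
    exact h1.trans h2.symm
  mul_comm x y := by
    apply Subtype.ext
    exact Prod.ext (Nat.add_comm _ _) pay_comm

theorem Sem.deg_mul (x y : Sem e) : (x * y).deg = x.deg + y.deg := rfl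

theorem Sem.pay_mul (x y : Sem e) : (x * y).1.2 = pay e x.1 y.1 := rfl

theorem Sem.deg_cases (x : Sem e) : x.deg = 8 ∨ x.deg = 9 ∨ 12 ≤ x.deg := valid_deg x.2

/-- vertices in degree `8` -/
def Sem.vtx (e : E → Y × Y × Y) (y : Y) : Sem e := ⟨(8, some (Sum.inl y)), Or.inl rfl⟩

/-- edges in degree `9` -/
def Sem.edg (e : E → Y × Y × Y) (r : E) : Sem e := ⟨(9, some (Sum.inr r)), rfl⟩

/-- copies of the vertices in degrees `21, 22, 23` -/
def Sem.cop (e : E → Y × Y × Y) (j : Fin 3) (y : Y) : Sem e :=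
  ⟨(21 + j, some (Sum.inl y)), by
    have h := j.2
    have : (21 + (j : ℕ) = 8 ∨ 21 + (j : ℕ) = 21 ∨ 21 + (j : ℕ) = 22 ∨ 21 + (j : ℕ) = 23) := by
      omega
    exact this⟩

/-- the remaining elements -/
def Sem.bas (e : E → Y × Y × Y) (n : ℕ) (h : 12 ≤ n ∧ n ≠ 21 ∧ n ≠ 22 ∧ n ≠ 23) : Sem e :=
  ⟨(n, none), h⟩

theorem Sem.deg_vtx (y : Y) : (Sem.vtx e y).deg = 8 := rfl
theorem Sem.deg_edg (r : E) : (Sem.edg e r).deg = 9 := rfl
theorem Sem.deg_cop (j : Fin 3) (y : Y) : (Sem.cop e j y).deg = 21 + j := rfl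
theorem Sem.deg_bas (n : ℕ) (h) : (Sem.bas e n h).deg = n := rfl

theorem Sem.cases (x : Sem e) : (∃ y, x = Sem.vtx e y) ∨ (∃ r, x = Sem.edg e r) ∨
    (∃ j y, x = Sem.cop e j y) ∨ (∃ n h, x = Sem.bas e n h) := by
  rcases valid_cases x.2 with ⟨y, h⟩ | ⟨r, h⟩ | ⟨j, y, hj, h⟩ | h
  · left; exact ⟨y, Subtype.ext h⟩
  · right; left; exact ⟨r, Subtype.ext h⟩
  · right; right; left; exact ⟨⟨j, hj⟩, y, Subtype.ext h⟩
  · right; right; right
    exact ⟨x.1.1, ⟨h.1, h.2.1, h.2.2.1, h.2.2.2.1⟩, Subtype.ext h.2.2.2.2⟩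

/-- two elements of the same degree with trivial payload agree -/
theorem Sem.eq_of_deg {x y : Sem e} (h : x.deg = y.deg)
    (hd : x.deg ≠ 8 ∧ x.deg ≠ 9 ∧ x.deg ≠ 21 ∧ x.deg ≠ 22 ∧ x.deg ≠ 23) : x = y := by
  have key : ∀ z : Sem e, z.deg ≠ 8 ∧ z.deg ≠ 9 ∧ z.deg ≠ 21 ∧ z.deg ≠ 22 ∧ z.deg ≠ 23 →
      z.1.2 = none := by
    intro z hz
    rcases Sem.cases z with ⟨y, rfl⟩ | ⟨r, rfl⟩ | ⟨j, y, rfl⟩ | ⟨n, hn, rfl⟩
    · exact absurd rfl hz.1
    · exact absurd rfl hz.2.1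
    · rw [Sem.deg_cop] at hz
      have := j.2
      omega
    · rfl
  apply Subtype.ext
  exact Prod.ext h ((key x hd).trans (key y (h ▸ hd)).symm)

theorem Sem.eq_of_deg_ge {x y : Sem e} (h : x.deg = y.deg) (hd : 24 ≤ x.deg) : x = y :=
  Sem.eq_of_deg h (by omega)

theorem Sem.exists_vtx {x : Sem e} (h : x.deg = 8) : ∃ y, x = Sem.vtx e y := by
  rcases Sem.cases x with h' | ⟨r, rfl⟩ | ⟨j, y, rfl⟩ | ⟨n, hn, rfl⟩
  · exact h'
  · rw [Sem.deg_edg] at h; omega
  · rw [Sem.deg_cop] at h; omega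
  · rw [Sem.deg_bas] at h; omega

theorem Sem.exists_edg {x : Sem e} (h : x.deg = 9) : ∃ r, x = Sem.edg e r := by
  rcases Sem.cases x with ⟨r, rfl⟩ | h' | ⟨j, y, rfl⟩ | ⟨n, hn, rfl⟩
  · rw [Sem.deg_vtx] at h; omega
  · exact h'
  · rw [Sem.deg_cop] at h; omega
  · rw [Sem.deg_bas] at h; omega

theorem Sem.vtx_injective : Function.Injective (Sem.vtx e) := by
  intro y y' h
  have h1 : (8, some (Sum.inl y)) = ((8, some (Sum.inl y')) : Pre Y E) := congrArg Subtype.val h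
  simpa using h1

theorem Sem.edg_injective : Function.Injective (Sem.edg e) := by
  intro y y' h
  have h1 : (9, some (Sum.inr y)) = ((9, some (Sum.inr y')) : Pre Y E) := congrArg Subtype.val h
  simpa using h1

theorem Sem.cop_injective (j : Fin 3) : Function.Injective (Sem.cop e j) := by
  intro y y' h
  have h1 : (21 + (j : ℕ), some (Sum.inl y)) = ((21 + (j : ℕ), some (Sum.inl y')) : Pre Y E) :=
    congrArg Subtype.val h
  simpa using h1

/-- the base element `t_{13 + j}` -/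
theorem Sem.vtx_mul (y : Y) (j : Fin 3) (h) :
    Sem.vtx e y * Sem.bas e (13 + j) h = Sem.cop e j y := by
  apply Subtype.ext
  have hj := j.2
  refine Prod.ext ?_ ?_
  · show 8 + (13 + (j : ℕ)) = 21 + j
    omega
  · show pay e (8, some (Sum.inl y)) (13 + (j : ℕ), none) = some (Sum.inl y)
    have h1 : (8 = 8 ∧ 13 ≤ 13 + (j : ℕ) ∧ 13 + (j : ℕ) ≤ 15) := by omega
    unfold pay
    rw [if_pos h1]

theorem Sem.edg_mul (r : E) (j : Fin 3) (h) :
    Sem.edg e r * Sem.bas e (12 + j) h = Sem.cop e j (coord j (e r)) := by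
  apply Subtype.ext
  have hj := j.2
  refine Prod.ext ?_ ?_
  · show 9 + (12 + (j : ℕ)) = 21 + j
    omega
  · show pay e (9, some (Sum.inr r)) (12 + (j : ℕ), none) = some (Sum.inl (coord j (e r)))
    have h1 : ¬ (9 = 8 ∧ 13 ≤ 12 + (j : ℕ) ∧ 12 + (j : ℕ) ≤ 15) := by omega
    have h2 : ¬ (12 + (j : ℕ) = 8 ∧ 13 ≤ 9 ∧ 9 ≤ 15) := by omega
    have h3 : (9 = 9 ∧ 12 ≤ 12 + (j : ℕ) ∧ 12 + (j : ℕ) ≤ 14) := by omega
    unfold pay
    rw [if_neg h1, if_neg h2, if_pos h3]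
    simp [proj]

end sem

end H91R2.EndCan
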