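import Pool.Agent.H91R2.EndCan.Pos
import Pool.Agent.H91R2.EndRat.Gordan

/-!
# Finitely generated commutative semigroups without absorbing pairs
-/

namespace H91R2.EndCan

universe u

variable {S : Type u} [CommSemigroup S]

/-- `S` is finitely generated. -/
def FinGen (S : Type u) [Mul S] : Prop := ∃ G : Set S, G.Finite ∧ Subsemigroup.closure G = ⊤

/-- `S` has no absorbing pair. -/
def NoAbsorb (S : Type u) [Mul S] : Prop := ∀ s c : S, s * c ≠ c

theorem wo_cases (x : WithOne S) : x = 1 ∨ ∃ y : S, x = (y : WithOne S) :=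
  WithOne.cases_on x (Or.inl rfl) (fun y => Or.inr ⟨y, rfl⟩)

theorem withOne_fg (h : FinGen S) : Monoid.FG (WithOne S) := by
  obtain ⟨G, hG, hcl⟩ := h
  rw [Monoid.fg_iff]
  refine ⟨(fun x : S => (x : WithOne S)) '' G, ?_, hG.image _⟩
  rw [eq_top_iff]
  intro x _
  have h1 : ∀ y ∈ Subsemigroup.closure G,
      ((y : S) : WithOne S) ∈ Submonoid.closure ((fun x : S => (x : WithOne S)) '' G) := by
    intro y hy
    induction hy using Subsemigroup.closure_induction with
    | mem z hz => exact Submonoid.subset_closure ⟨z, hz, rfl⟩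
    | mul z w _ _ h1 h2 => rw [WithOne.coe_mul]; exact mul_mem h1 h2
  rcases wo_cases x with rfl | ⟨y, rfl⟩
  · exact one_mem _
  · exact h1 y (by rw [hcl]; trivial)

theorem exists_conductor_monoid (M : Type u) [CommMonoid M] [Monoid.FG M] :
    ∃ c : M, ∀ a b d : M, d * a = d * b → c * a = c * b := by
  classical
  let R := MonoidAlgebra ℤ M
  have : Algebra.FiniteType ℤ R := inferInstance
  have hN : IsNoetherianRing R := Algebra.FiniteType.isNoetherianRing ℤ R
  let J : M → Ideal R := fun c => LinearMap.ker (LinearMap.toSpanSingleton R R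
    (MonoidAlgebra.single c 1 : R))
  have hJ : ∀ c x, x ∈ J c ↔ x * (MonoidAlgebra.single c 1 : R) = 0 := fun c x => Iff.rfl
  obtain ⟨I, ⟨c, rfl⟩, hc⟩ := set_has_maximal_iff_noetherian.mpr hN (Set.range J) ⟨_, ⟨1, rfl⟩⟩
  refine ⟨c, fun a b d hab => ?_⟩
  have h1 : J c ≤ J (d * c) := by
    intro x hx
    rw [hJ] at hx ⊢
    have h2 : (MonoidAlgebra.single (d * c) 1 : R) =
        (MonoidAlgebra.single c 1 : R) * (MonoidAlgebra.single d 1 : R) := by
      rw [MonoidAlgebra.single_mul_single, mul_one, mul_comm]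
    rw [h2, ← mul_assoc, hx, zero_mul]
  have h3 : J (d * c) ≤ J c := by
    by_contra h4
    exact hc _ ⟨d * c, rfl⟩ (lt_of_le_not_ge h1 h4)
  have h5 : (MonoidAlgebra.single a 1 - MonoidAlgebra.single b 1 : R) ∈ J (d * c) := by
    rw [hJ, sub_mul, MonoidAlgebra.single_mul_single, MonoidAlgebra.single_mul_single]
    have : a * (d * c) = b * (d * c) := by
      rw [← mul_assoc, ← mul_assoc, mul_comm a d, mul_comm b d, hab]
    rw [this, sub_self]
  have h6 := h3 h5
  rw [hJ, sub_mul, MonoidAlgebra.single_mul_single, MonoidAlgebra.single_mul_single, mul_one,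
    sub_eq_zero] at h6
  have h7 : a * c = b * c := MonoidAlgebra.of_injective (R := ℤ) h6
  rw [mul_comm c a, mul_comm c b]
  exact h7

theorem exists_conductor [Nonempty S] (h : FinGen S) :
    ∃ c : S, ∀ a b d : S, d * a = d * b → c * a = c * b := by
  have := withOne_fg h
  obtain ⟨c₀, hc⟩ := exists_conductor_monoid (WithOne S)
  obtain ⟨s₀⟩ := ‹Nonempty S›
  have h1 : ∃ c : S, (c : WithOne S) = (s₀ : WithOne S) * c₀ := by
    rcases wo_cases c₀ with rfl | ⟨y, rfl⟩
    · exact ⟨s₀, by rw [mul_one]⟩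
    · exact ⟨s₀ * y, WithOne.coe_mul _ _⟩
  obtain ⟨c, hc'⟩ := h1
  refine ⟨c, fun a b d hab => ?_⟩
  have h2 := hc a b d (by rw [← WithOne.coe_mul, ← WithOne.coe_mul, hab])
  apply WithOne.coe_injective
  rw [WithOne.coe_mul, WithOne.coe_mul, hc', mul_assoc, mul_assoc, h2]

section degree

/-- monomials -/
def mon {n : ℕ} (s : Fin n → S) (a : Fin n → ℕ) : WithOne S := ∏ i, (s i : WithOne S) ^ a i

theorem mon_add {n : ℕ} (s : Fin n → S) (a b : Fin n → ℕ) :
    mon s (a + b) = mon s a * mon s b := by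
  unfold mon
  rw [← Finset.prod_mul_distrib]
  exact Finset.prod_congr rfl fun i _ => pow_add _ _ _

theorem mon_smul {n : ℕ} (s : Fin n → S) (a : Fin n → ℕ) (k : ℕ) :
    mon s (k • a) = mon s a ^ k := by
  unfold mon
  rw [← Finset.prod_pow]
  refine Finset.prod_congr rfl fun i _ => ?_
  rw [Pi.smul_apply, smul_eq_mul, mul_comm, pow_mul]

theorem mon_zero {n : ℕ} (s : Fin n → S) : mon s 0 = 1 := by
  unfold mon
  exact Finset.prod_eq_one fun i _ => pow_zero _

open Classical in
theorem mon_single {n : ℕ} (s : Fin n → S) (i : Fin n) :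
    mon s (Pi.single i 1) = (s i : WithOne S) := by
  unfold mon
  rw [Finset.prod_eq_single i]
  · rw [Pi.single_eq_same, pow_one]
  · intro j _ hj
    rw [Pi.single_eq_of_ne hj, pow_zero]
  · intro h; exact absurd (Finset.mem_univ i) h

theorem exists_coe_mul (x : S) (w : WithOne S) : ∃ y : S, (y : WithOne S) = x * w := by
  rcases wo_cases w with rfl | ⟨y, rfl⟩
  · exact ⟨x, by rw [mul_one]⟩
  · exact ⟨x * y, WithOne.coe_mul _ _⟩

theorem mon_ne_one {n : ℕ} (s : Fin n → S) (a : Fin n → ℕ) (ha : a ≠ 0) :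
    ∃ x : S, mon s a = (x : WithOne S) := by
  classical
  obtain ⟨i, hi⟩ : ∃ i, a i ≠ 0 := by
    by_contra h
    push Not at h
    exact ha (funext h)
  have h1 : a = Pi.single i 1 + (a - Pi.single i 1) := by
    funext j
    by_cases hj : j = i
    · subst hj
      simp only [Pi.add_apply, Pi.sub_apply, Pi.single_eq_same]
      omega
    · simp only [Pi.add_apply, Pi.sub_apply, Pi.single_eq_of_ne hj]
      omega
  rw [h1, mon_add, mon_single]
  obtain ⟨y, hy⟩ := exists_coe_mul (s i) (mon s (a - Pi.single i 1))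
  exact ⟨y, hy.symm⟩

/-- the space of relations -/
def relSp {n : ℕ} (s : Fin n → S) : Submodule ℚ (Fin n → ℚ) where
  carrier := {v | ∃ N : ℕ, 0 < N ∧ ∃ a b : Fin n → ℕ, (∀ i, (N : ℚ) * v i = a i - b i) ∧
    mon s a = mon s b}
  zero_mem' := ⟨1, one_pos, 0, 0, fun i => by simp, rfl⟩
  add_mem' := by
    rintro v w ⟨N, hN, a, b, h1, h2⟩ ⟨N', hN', c, d, h3, h4⟩
    refine ⟨N * N', Nat.mul_pos hN hN', N' • a + N • c, N' • b + N • d, fun i => ?_, ?_⟩
    · simp only [Pi.add_apply, Pi.smul_apply, smul_eq_mul]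
      push_cast
      linear_combination (N' : ℚ) * h1 i + (N : ℚ) * h3 i
    · rw [mon_add, mon_add, mon_smul, mon_smul, mon_smul, mon_smul, h2, h4]
  smul_mem' := by
    rintro q v ⟨N, hN, a, b, h1, h2⟩
    have hq : (q.den : ℚ) ≠ 0 := by exact_mod_cast q.den_nz
    have hq1 : (q.den : ℚ) * q = q.num := by
      rw [mul_comm]; exact Rat.mul_den_eq_num q
    rcases le_total 0 q.num with hs | hs
    · obtain ⟨p, hp⟩ := Int.eq_ofNat_of_zero_le hs
      have hp' : (q.num : ℚ) = p := by rw [hp]; simp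
      refine ⟨N * q.den, Nat.mul_pos hN q.den_pos, p • a, p • b, fun i => ?_, ?_⟩
      · simp only [Pi.smul_apply, smul_eq_mul]
        push_cast
        rw [hp'] at hq1
        linear_combination (p : ℚ) * h1 i + (N : ℚ) * v i * hq1
      · rw [mon_smul, mon_smul, h2]
    · obtain ⟨p, hp⟩ := Int.eq_ofNat_of_zero_le (neg_nonneg.mpr hs)
      have hp' : (q.num : ℚ) = -p := by
        have : q.num = -(p : ℤ) := by omega
        rw [this]; simp
      refine ⟨N * q.den, Nat.mul_pos hN q.den_pos, p • b, p • a, fun i => ?_, ?_⟩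
      · simp only [Pi.smul_apply, smul_eq_mul]
        push_cast
        rw [hp'] at hq1
        linear_combination (-(p : ℚ)) * h1 i + (N : ℚ) * v i * hq1
      · rw [mon_smul, mon_smul, h2]

/-- the orthogonal space -/
def orthSp {n : ℕ} (L : Submodule ℚ (Fin n → ℚ)) : Submodule ℚ (Fin n → ℚ) where
  carrier := {c | ∀ v ∈ L, ∑ i, c i * v i = 0}
  zero_mem' := fun v _ => by simp
  add_mem' := by
    intro c d hc hd v hv
    have h1 := hc v hv
    have h2 := hd v hv
    have h3 : ∑ i, (c + d) i * v i = ∑ i, c i * v i + ∑ i, d i * v i := by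
      rw [← Finset.sum_add_distrib]
      exact Finset.sum_congr rfl fun i _ => by rw [Pi.add_apply]; ring
    rw [h3, h1, h2, add_zero]
  smul_mem' := by
    intro q c hc v hv
    have h1 := hc v hv
    have h3 : ∑ i, (q • c) i * v i = q * ∑ i, c i * v i := by
      rw [Finset.mul_sum]
      exact Finset.sum_congr rfl fun i _ => by rw [Pi.smul_apply, smul_eq_mul]; ring
    rw [h3, h1, mul_zero]

theorem mem_of_orth {n : ℕ} (L : Submodule ℚ (Fin n → ℚ)) (v : Fin n → ℚ)
    (hv : ∀ c ∈ orthSp L, ∑ i, v i * c i = 0) : v ∈ L := by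
  classical
  by_contra h
  obtain ⟨f, hf, hL⟩ := L.exists_le_ker_of_notMem h
  have hexp : ∀ w : Fin n → ℚ, f w = ∑ i, f (Pi.single i 1) * w i := by
    intro w
    conv_lhs => rw [← Finset.univ_sum_single w, map_sum]
    refine Finset.sum_congr rfl fun i _ => ?_
    have : (Pi.single i (w i) : Fin n → ℚ) = w i • Pi.single i 1 := by
      rw [← Pi.single_smul, smul_eq_mul, mul_one]
    rw [this, map_smul, smul_eq_mul, mul_comm]
  have h1 : (fun i => f (Pi.single i 1)) ∈ orthSp L := by
    intro w hw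
    have h2 : f w = 0 := hL hw
    rw [hexp] at h2
    exact h2
  have h2 := hv _ h1
  apply hf
  rw [hexp, ← h2]
  exact Finset.sum_congr rfl fun i _ => mul_comm _ _

theorem exists_degree [Nonempty S] (hfg : FinGen S) (habs : NoAbsorb S) :
    ∃ φ : S → ℕ, IsAdd φ ∧ ∀ x, 0 < φ x := by
  classical
  obtain ⟨G, hG, hcl⟩ := hfg
  obtain ⟨x₀⟩ := ‹Nonempty S›
  obtain ⟨n, s, hs⟩ : ∃ (n : ℕ) (s : Fin n → S), Set.range s = G := by
    have hf := hG.fintype
    let e := (Fintype.equivFin G).symm
    refine ⟨Fintype.card G, fun i => (e i : S), ?_⟩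
    ext x
    constructor
    · rintro ⟨i, rfl⟩; exact (e i).2
    · intro hx; exact ⟨e.symm ⟨x, hx⟩, by simp⟩
  subst hs
  have hsurj : ∀ x : S, ∃ a : Fin n → ℕ, mon s a = (x : WithOne S) := by
    intro x
    have hx : x ∈ Subsemigroup.closure (Set.range s) := by rw [hcl]; trivial
    induction hx using Subsemigroup.closure_induction with
    | mem z hz =>
      obtain ⟨i, rfl⟩ := hz
      exact ⟨Pi.single i 1, mon_single s i⟩
    | mul z w _ _ h1 h2 =>
      obtain ⟨a, ha⟩ := h1
      obtain ⟨b, hb⟩ := h2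
      exact ⟨a + b, by rw [mon_add, ha, hb, WithOne.coe_mul]⟩
  have hn : 0 < n := by
    rcases Nat.eq_zero_or_pos n with h | h
    · subst h
      obtain ⟨a, ha⟩ := hsurj x₀
      have h0 : mon s a = 1 := by unfold mon; simp
      rw [h0] at ha
      exact absurd ha.symm WithOne.coe_ne_one
    · exact h
  rcases EndRat.gordan n (orthSp (relSp s)) hn with ⟨c, hc, hpos⟩ | ⟨v, hv0, ⟨i0, hi0⟩, hv⟩
  · -- a positive additive function
    have hval : ∀ a b : Fin n → ℕ, mon s a = mon s b →
        ∑ i, c i * (a i : ℚ) = ∑ i, c i * (b i : ℚ) := by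
      intro a b h
      have h1 := hc (fun i => (a i : ℚ) - (b i : ℚ)) ⟨1, one_pos, a, b, fun i => by simp, h⟩
      have h2 : ∑ i, c i * ((a i : ℚ) - (b i : ℚ)) =
          ∑ i, c i * (a i : ℚ) - ∑ i, c i * (b i : ℚ) := by
        rw [← Finset.sum_sub_distrib]
        exact Finset.sum_congr rfl fun i _ => by ring
      rw [h2] at h1
      linarith
    -- common denominator
    set D : ℕ := ∏ i, (c i).den with hD
    have hDpos : 0 < D := Finset.prod_pos fun i _ => (c i).den_pos
    have hDc : ∀ i, ∃ k : ℕ, 0 < k ∧ (D : ℚ) * c i = k := by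
      intro i
      have h1 : (c i).den ∣ D := Finset.dvd_prod_of_mem _ (Finset.mem_univ i)
      obtain ⟨m, hm⟩ := h1
      have hnum : 0 < (c i).num := Rat.num_pos.mpr (hpos i)
      have hmpos : 0 < m := Nat.pos_of_ne_zero (by rintro rfl; omega)
      refine ⟨m * (c i).num.toNat, Nat.mul_pos hmpos (by omega), ?_⟩
      have h2 : (c i) * (c i).den = (c i).num := Rat.mul_den_eq_num (c i)
      have h3 : (((c i).num.toNat : ℕ) : ℚ) = (c i).num := by
        have : (((c i).num.toNat : ℕ) : ℤ) = (c i).num := Int.toNat_of_nonneg hnum.le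
        exact_mod_cast this
      rw [hm]
      push_cast
      rw [h3, ← h2]
      ring
    choose k hk0 hk using hDc
    choose A hA using hsurj
    have hval' : ∀ a b : Fin n → ℕ, mon s a = mon s b → ∑ i, k i * a i = ∑ i, k i * b i := by
      intro a b h
      have h1 := hval a b h
      have h2 : ∀ a : Fin n → ℕ, ((∑ i, k i * a i : ℕ) : ℚ) = D * ∑ i, c i * (a i : ℚ) := by
        intro a
        push_cast
        rw [Finset.mul_sum]
        exact Finset.sum_congr rfl fun i _ => by rw [← hk]; ring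
      have h3 : ((∑ i, k i * a i : ℕ) : ℚ) = ((∑ i, k i * b i : ℕ) : ℚ) := by rw [h2, h2, h1]
      exact_mod_cast h3
    refine ⟨fun x => ∑ i, k i * A x i, fun x y => ?_, fun x => ?_⟩
    · have h1 : mon s (A (x * y)) = mon s (A x + A y) := by
        rw [mon_add, hA, hA, hA, WithOne.coe_mul]
      dsimp only
      rw [hval' _ _ h1, ← Finset.sum_add_distrib]
      exact Finset.sum_congr rfl fun i _ => by rw [Pi.add_apply]; ring
    · have h1 : A x ≠ 0 := by
        intro h
        have := hA x
        rw [h, mon_zero] at this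
        exact absurd this.symm WithOne.coe_ne_one
      obtain ⟨i, hi⟩ : ∃ i, A x i ≠ 0 := by
        by_contra h
        push Not at h
        exact h1 (funext h)
      exact Finset.sum_pos' (fun _ _ => Nat.zero_le _)
        ⟨i, Finset.mem_univ _, Nat.mul_pos (hk0 i) (Nat.pos_of_ne_zero hi)⟩
  · -- an absorbing pair
    exfalso
    have hvL : v ∈ relSp s := mem_of_orth _ v hv
    obtain ⟨N, hN, a, b, hab, hE⟩ := hvL
    have hle : ∀ i, b i ≤ a i := by
      intro i
      have h1 : (0 : ℚ) ≤ N * v i := mul_nonneg (Nat.cast_nonneg _) (hv0 i)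
      rw [hab] at h1
      have h2 : (b i : ℚ) ≤ a i := by linarith
      exact_mod_cast h2
    have haw : a = b + (a - b) := by
      funext i
      have := hle i
      simp only [Pi.add_apply, Pi.sub_apply]
      omega
    have hw : a - b ≠ 0 := by
      intro h
      have h1 := congrFun h i0
      have h2 := hle i0
      simp only [Pi.sub_apply, Pi.zero_apply] at h1
      have h3 : a i0 = b i0 := by omega
      have h4 := hab i0
      rw [h3, sub_self] at h4
      have h5 : (N : ℚ) ≠ 0 := by exact_mod_cast hN.ne'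
      exact hi0 ((mul_eq_zero.mp h4).resolve_left h5)
    obtain ⟨w, hw'⟩ := mon_ne_one s _ hw
    rw [haw, mon_add, hw'] at hE
    by_cases hb : b = 0
    · rw [hb, mon_zero, one_mul] at hE
      exact WithOne.coe_ne_one hE
    · obtain ⟨y, hy⟩ := mon_ne_one s b hb
      rw [hy, ← WithOne.coe_mul] at hE
      have h1 := WithOne.coe_injective hE
      rw [mul_comm] at h1
      exact habs w y h1

end degree

/-- The criterion for finitely generated semigroups without absorbing pairs. -/
theorem fg_iff (hfg : FinGen S) (habs : NoAbsorb S) :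
    EndCancel S ↔ ∀ g h : S →ₙ* S, (∀ x, ∃ d, d * g x = d * h x) → g = h := by
  rcases isEmpty_or_nonempty S with hS | hS
  · exact ⟨fun _ g h _ => by ext x; exact (hS.false x).elim,
      fun _ f g h _ => by ext x; exact (hS.false x).elim⟩
  obtain ⟨φ, hφ, hpos⟩ := exists_degree hfg habs
  obtain ⟨c, hc⟩ := exists_conductor hfg
  constructor
  · intro h g k hgk
    apply h (gp hφ hpos c)
    ext x
    show pw c _ * g x = pw c _ * k x
    obtain ⟨d, hd⟩ := hgk x
    have h1 := hc _ _ d hd
    have h2 : ∀ n, pw c n * g x = pw c n * k x := by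
      intro n
      induction n with
      | zero => exact h1
      | succ n ih => show pw c n * c * g x = pw c n * c * k x; rw [mul_assoc, h1, ← mul_assoc]
    exact h2 _
  · intro h f g k hfg'
    apply h
    intro x
    exact ⟨f x, congrArg (fun F : S →ₙ* S => F x) hfg'⟩

theorem fg_powCancel_iff (hfg : FinGen S) (habs : NoAbsorb S) (hp : PowCancel S) :
    EndCancel S ↔ Cancel S := by
  rcases isEmpty_or_nonempty S with hS | hS
  · exact ⟨fun _ x => (hS.false x).elim, fun h => h.endCancel⟩
  obtain ⟨φ, hφ, hpos⟩ := exists_degree hfg habs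
  exact graded_powCancel_iff hφ (Or.inl hpos) ⟨hS.some, hpos _⟩ hp

end H91R2.EndCan
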