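import Pool.Agent.H91R2.EndCan.FG

/-!
# Finitely generated power-cancellative semigroups with an idempotent
-/

namespace H91R2.EndCan

universe u

variable {S : Type u} [CommSemigroup S]

theorem coe_pw (x : S) (n : ℕ) : ((pw x n : S) : WithOne S) = (x : WithOne S) ^ (n + 1) := by
  induction n with
  | zero => show (x : WithOne S) = _; rw [zero_add, pow_one]
  | succ n ih =>
    show ((pw x n * x : S) : WithOne S) = _
    rw [WithOne.coe_mul, ih, pow_succ _ (n + 1)]

/-- Either there is a nonzero additive function, or some element `z` is idempotent and divisible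
by everything. -/
theorem fg_alternative [Nonempty S] (hfg : FinGen S) :
    (∃ φ : S → ℕ, IsAdd φ ∧ ∃ x, 0 < φ x) ∨ ∃ z : S, z * z = z ∧ ∀ x, ∃ y, x * y = z := by
  classical
  obtain ⟨G, hG, hcl⟩ := hfg
  obtain ⟨x₀⟩ := ‹Nonempty S›
  obtain ⟨n, s, hs⟩ : ∃ (n : ℕ) (s : Fin n → S), Set.range s = G := by
    have hf := hG.fintype
    let e := (Fintype.equivFin G).symm
    refine ⟨Fintype.card G, fun i => (e i : S), ?_⟩
    ext x
    constructor
    · rintro ⟨i, rfl⟩; exact (e i).2
    · intro hx; exact ⟨e.symm ⟨x, hx⟩, by simp⟩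
  subst hs
  have hsurj : ∀ x : S, ∃ a : Fin n → ℕ, mon s a = (x : WithOne S) := by
    intro x
    have hx : x ∈ Subsemigroup.closure (Set.range s) := by rw [hcl]; trivial
    induction hx using Subsemigroup.closure_induction with
    | mem z hz =>
      obtain ⟨i, rfl⟩ := hz
      exact ⟨Pi.single i 1, mon_single s i⟩
    | mul z w _ _ h1 h2 =>
      obtain ⟨a, ha⟩ := h1
      obtain ⟨b, hb⟩ := h2
      exact ⟨a + b, by rw [mon_add, ha, hb, WithOne.coe_mul]⟩
  have hn : 0 < n := by
    rcases Nat.eq_zero_or_pos n with h | h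
    · subst h
      obtain ⟨a, ha⟩ := hsurj x₀
      have h0 : mon s a = 1 := by unfold mon; simp
      rw [h0] at ha
      exact absurd ha.symm WithOne.coe_ne_one
    · exact h
  rcases EndRat.gordan n (relSp s) hn with ⟨v, ⟨N, hN, a, b, hab, hE⟩, hv⟩ | ⟨c, hc0, ⟨i0, hi0⟩, hc⟩
  · right
    have hN' : (0 : ℚ) < N := by exact_mod_cast hN
    have hlt : ∀ i, b i < a i := by
      intro i
      have h1 : (0 : ℚ) < N * v i := mul_pos hN' (hv i)
      rw [hab] at h1
      have h2 : (b i : ℚ) < a i := by linarith
      exact_mod_cast h2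
    set w : Fin n → ℕ := a - b with hw
    have hwpos : ∀ i, 1 ≤ w i := fun i => by
      have := hlt i
      simp only [hw, Pi.sub_apply]; omega
    have haw : a = b + w := by
      funext i
      have := hlt i
      simp only [hw, Pi.add_apply, Pi.sub_apply]; omega
    have hbw : mon s b * mon s w = mon s b := by rw [← mon_add, ← haw, hE]
    have hw0 : w ≠ 0 := by
      intro h
      have := hwpos ⟨0, hn⟩
      rw [h] at this
      simp at this
    obtain ⟨y, hy⟩ := mon_ne_one s w hw0
    -- domination
    have hdom : ∀ d : Fin n → ℕ, ∀ M, (Finset.univ.sup d) ≤ M →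
        ∃ r : Fin n → ℕ, M • w = d + r := by
      intro d M hM
      refine ⟨fun i => M * w i - d i, ?_⟩
      funext i
      have h1 : d i ≤ M := (Finset.le_sup (Finset.mem_univ i)).trans hM
      have h2 : d i ≤ M * w i := h1.trans (Nat.le_mul_of_pos_right M (hwpos i))
      simp only [Pi.smul_apply, smul_eq_mul, Pi.add_apply]
      omega
    set M := Finset.univ.sup b + 1 with hM
    have hpow : ∀ k : ℕ, mon s (k • w) = (y : WithOne S) ^ k := fun k => by rw [mon_smul, hy]
    obtain ⟨r, hr⟩ := hdom b M (by omega)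
    have h1 : (y : WithOne S) ^ M * y = (y : WithOne S) ^ M := by
      rw [← hpow, hr, mon_add, ← hy, mul_right_comm, hbw]
    have h2 : ∀ k, (y : WithOne S) ^ (M + k) = (y : WithOne S) ^ M := by
      intro k
      induction k with
      | zero => rfl
      | succ k ih => rw [← Nat.add_assoc, pow_succ, ih, h1]
    set z : S := pw y (Finset.univ.sup b) with hz
    have hzc : (z : WithOne S) = (y : WithOne S) ^ M := by rw [hz, coe_pw]
    refine ⟨z, ?_, fun x => ?_⟩
    · apply WithOne.coe_injective
      rw [WithOne.coe_mul, hzc, ← pow_add, h2]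
    · obtain ⟨d, hd⟩ := hsurj x
      obtain ⟨r', hr'⟩ := hdom d (M + Finset.univ.sup d) (by omega)
      have h3 : (x : WithOne S) * mon s r' = (z : WithOne S) := by
        rw [← hd, ← mon_add, ← hr', hpow, h2, hzc]
      obtain ⟨q, hq⟩ := exists_coe_mul z (mon s r')
      refine ⟨q, ?_⟩
      apply WithOne.coe_injective
      rw [WithOne.coe_mul, hq, mul_left_comm, h3, hzc, ← pow_add, h2]
  · left
    have hval : ∀ a b : Fin n → ℕ, mon s a = mon s b →
        ∑ i, c i * (a i : ℚ) = ∑ i, c i * (b i : ℚ) := by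
      intro a b h
      have h1 := hc (fun i => (a i : ℚ) - (b i : ℚ)) ⟨1, one_pos, a, b, fun i => by simp, h⟩
      have h2 : ∑ i, c i * ((a i : ℚ) - (b i : ℚ)) =
          ∑ i, c i * (a i : ℚ) - ∑ i, c i * (b i : ℚ) := by
        rw [← Finset.sum_sub_distrib]
        exact Finset.sum_congr rfl fun i _ => by ring
      rw [h2] at h1
      linarith
    set D : ℕ := ∏ i, (c i).den with hD
    have hDpos : 0 < D := Finset.prod_pos fun i _ => (c i).den_pos
    have hDc : ∀ i, ∃ k : ℕ, (D : ℚ) * c i = k := by
      intro i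
      have h1 : (c i).den ∣ D := Finset.dvd_prod_of_mem _ (Finset.mem_univ i)
      obtain ⟨m, hm⟩ := h1
      have hnum : 0 ≤ (c i).num := Rat.num_nonneg.mpr (hc0 i)
      refine ⟨m * (c i).num.toNat, ?_⟩
      have h2 : (c i) * (c i).den = (c i).num := Rat.mul_den_eq_num (c i)
      have h3 : (((c i).num.toNat : ℕ) : ℚ) = (c i).num := by
        have : (((c i).num.toNat : ℕ) : ℤ) = (c i).num := Int.toNat_of_nonneg hnum
        exact_mod_cast this
      rw [hm]
      push_cast
      rw [h3, ← h2]
      ring
    choose k hk using hDc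
    choose A hA using hsurj
    have hval' : ∀ a b : Fin n → ℕ, mon s a = mon s b → ∑ i, k i * a i = ∑ i, k i * b i := by
      intro a b h
      have h1 := hval a b h
      have h2 : ∀ a : Fin n → ℕ, ((∑ i, k i * a i : ℕ) : ℚ) = D * ∑ i, c i * (a i : ℚ) := by
        intro a
        push_cast
        rw [Finset.mul_sum]
        exact Finset.sum_congr rfl fun i _ => by rw [← hk]; ring
      have h3 : ((∑ i, k i * a i : ℕ) : ℚ) = ((∑ i, k i * b i : ℕ) : ℚ) := by rw [h2, h2, h1]
      exact_mod_cast h3
    refine ⟨fun x => ∑ i, k i * A x i, fun x y => ?_, s i0, ?_⟩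
    · have h1 : mon s (A (x * y)) = mon s (A x + A y) := by
        rw [mon_add, hA, hA, hA, WithOne.coe_mul]
      dsimp only
      rw [hval' _ _ h1, ← Finset.sum_add_distrib]
      exact Finset.sum_congr rfl fun i _ => by rw [Pi.add_apply]; ring
    · have h1 : mon s (A (s i0)) = mon s (Pi.single i0 1) := by
        rw [hA, mon_single]
      dsimp only
      rw [hval' _ _ h1, Finset.sum_eq_single i0]
      · rw [Pi.single_eq_same, mul_one]
        have h2 : 0 < c i0 := lt_of_le_of_ne (hc0 i0) (Ne.symm hi0)
        have h3 : (0 : ℚ) < k i0 := by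
          rw [← hk]
          exact mul_pos (by exact_mod_cast hDpos) h2
        exact_mod_cast h3
      · intro j _ hj
        rw [Pi.single_eq_of_ne hj, mul_zero]
      · intro h; exact absurd (Finset.mem_univ _) h

/-- Finitely generated power-cancellative semigroups which have an idempotent, or which have no
absorbing pair: `End(S)` is cancellative iff `S` is. -/
theorem fg_powCancel_iff' (hfg : FinGen S) (hp : PowCancel S)
    (h : (∃ e : S, e * e = e) ∨ NoAbsorb S) : EndCancel S ↔ Cancel S := by
  rcases h with ⟨e, he⟩ | h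
  · refine ⟨fun hE => ?_, fun h => h.endCancel⟩
    have hid : ∀ x, e * x = x := hE.idem he
    have : Nonempty S := ⟨e⟩
    rcases fg_alternative hfg with ⟨φ, hφ, hx⟩ | ⟨z, hz, hdiv⟩
    · exact (graded_powCancel_iff hφ (Or.inr ⟨e, hid⟩) hx hp).mp hE
    · exact IsGrp.cancel ⟨z, hE.idem hz, hdiv⟩
  · exact fg_powCancel_iff hfg h hp

end H91R2.EndCan
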