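import Pool.Agent.H91R2.EndCan.Analytic

/-!
# No first-order theory characterises the tables in `CanTab`
-/

open MeasureTheory FirstOrder FirstOrder.Language

namespace H91R2.EndCan

/-- the function symbols: one binary symbol -/
inductive MulFn : ℕ → Type
  | mul : MulFn 2

/-- The language with one binary operation. -/
def LM : FirstOrder.Language.{0, 0} := ⟨MulFn, fun _ => Empty⟩

/-- the structure on `ℕ` given by a table -/
def strOf (m : ℕ → ℕ → ℕ) : LM.Structure ℕ where
  funMap := fun {_} f x => match f, x with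
    | MulFn.mul, x => m (x 0) (x 1)
  RelMap := fun {_} r => Empty.elim r

theorem funMap_mul (m : ℕ → ℕ → ℕ) (x : Fin 2 → ℕ) :
    @Structure.funMap LM ℕ (strOf m) 2 MulFn.mul x = m (x 0) (x 1) := rfl

theorem continuous_term {α : Type} (w : α → ℕ) (t : LM.Term α) :
    Continuous (fun m : ℕ → ℕ → ℕ => @Term.realize LM ℕ (strOf m) α w t) := by
  induction t with
  | var a => exact continuous_const
  | @func n f ts ih =>
    cases f
    have h1 : (fun m : ℕ → ℕ → ℕ => @Term.realize LM ℕ (strOf m) α w (Term.func MulFn.mul ts)) =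
        fun m => m (@Term.realize LM ℕ (strOf m) α w (ts 0))
          (@Term.realize LM ℕ (strOf m) α w (ts 1)) := rfl
    rw [h1]
    exact continuous_eval₂ continuous_id (ih 0) (ih 1)

theorem measurable_formula {α : Type} {n : ℕ} (φ : LM.BoundedFormula α n) (v : α → ℕ) :
    ∀ xs : Fin n → ℕ, @MeasurableSet _ (borel (ℕ → ℕ → ℕ))
      {m | @BoundedFormula.Realize LM ℕ (strOf m) α n φ v xs} := by
  let _ : MeasurableSpace (ℕ → ℕ → ℕ) := borel _
  have _ : BorelSpace (ℕ → ℕ → ℕ) := ⟨rfl⟩
  induction φ with
  | falsum => intro xs; exact MeasurableSet.empty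
  | equal t₁ t₂ =>
    intro xs
    exact (isClosed_eq (continuous_term _ t₁) (continuous_term _ t₂)).measurableSet
  | rel r ts => exact Empty.elim r
  | @imp n f g ih₁ ih₂ =>
    intro xs
    have h1 : {m : ℕ → ℕ → ℕ | @BoundedFormula.Realize LM ℕ (strOf m) α n (f.imp g) v xs} =
        {m | @BoundedFormula.Realize LM ℕ (strOf m) α n f v xs}ᶜ ∪
          {m | @BoundedFormula.Realize LM ℕ (strOf m) α n g v xs} := by
      ext m
      simp only [Set.mem_ofPred_eq, Set.mem_union, Set.mem_compl_iff]
      exact imp_iff_not_or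
    rw [h1]
    exact (ih₁ xs).compl.union (ih₂ xs)
  | @all n f ih =>
    intro xs
    have h1 : {m : ℕ → ℕ → ℕ | @BoundedFormula.Realize LM ℕ (strOf m) α n f.all v xs} =
        ⋂ a : ℕ, {m | @BoundedFormula.Realize LM ℕ (strOf m) α (n + 1) f v (Fin.snoc xs a)} := by
      ext m
      simp only [Set.mem_ofPred_eq, Set.mem_iInter]
      exact Iff.rfl
    rw [h1]
    exact MeasurableSet.iInter fun a => ih _

instance : Countable (Σ n, LM.Functions n) := by
  have h : ∀ n, Countable (LM.Functions n) := by
    intro n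
    refine ⟨⟨fun _ => 0, fun f g _ => ?_⟩⟩
    cases f
    cases g
    rfl
  infer_instance

instance : Countable (Σ n, LM.Relations n) := by
  have h : ∀ n, Countable (LM.Relations n) := fun n => inferInstanceAs (Countable Empty)
  infer_instance

theorem countable_sentence : Countable LM.Sentence := by
  have h1 : Cardinal.mk (Σ n, LM.BoundedFormula Empty n) ≤ Cardinal.aleph0 := by
    refine BoundedFormula.card_le.trans ?_
    refine max_le le_rfl ?_
    have hL : LM.card ≤ Cardinal.aleph0 := by
      rw [Language.card, Cardinal.mk_le_aleph0_iff]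
      infer_instance
    have h2 := Cardinal.lift_le.{0}.mpr hL
    simp only [Cardinal.lift_uzero, Cardinal.lift_id] at h2 ⊢
    have h3 : Cardinal.mk Empty = 0 := Cardinal.mk_eq_zero _
    rw [h3, zero_add]
    exact h2
  have h2 : Countable (Σ n, LM.BoundedFormula Empty n) := Cardinal.mk_le_aleph0_iff.mp h1
  exact Function.Injective.countable (f := fun φ : LM.Sentence =>
    (⟨0, φ⟩ : Σ n, LM.BoundedFormula Empty n)) (fun a b h => by simpa using h)

theorem measurable_theory (T : LM.Theory) : @MeasurableSet _ (borel (ℕ → ℕ → ℕ))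
    {m | @Theory.Model LM ℕ (strOf m) T} := by
  let _ : MeasurableSpace (ℕ → ℕ → ℕ) := borel _
  have _ := countable_sentence
  have h1 : {m : ℕ → ℕ → ℕ | @Theory.Model LM ℕ (strOf m) T} =
      ⋂ φ ∈ T, {m | @Sentence.Realize LM ℕ (strOf m) φ} := by
    ext m
    simp only [Set.mem_ofPred_eq, Set.mem_iInter]
    constructor
    · intro h φ hφ
      exact @Theory.realize_sentence_of_mem LM ℕ (strOf m) T h φ hφ
    · intro h
      exact @Theory.Model.mk LM ℕ (strOf m) T (fun φ hφ => h φ hφ)
  rw [h1]
  refine MeasurableSet.biInter (Set.to_countable _) fun φ _ => ?_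
  exact measurable_formula φ _ _

/-- No first-order theory in the language of one binary operation characterises, among the
commutative semigroups on `ℕ`, those with cancellative endomorphism semigroup. -/
theorem not_axiomatizable : ¬ ∃ T : LM.Theory, ∀ m : ℕ → ℕ → ℕ, IsCS m →
    (m ∈ CanTab ↔ @Theory.Model LM ℕ (strOf m) T) := by
  rintro ⟨T, hT⟩
  apply canTab_not_borel
  let _ : MeasurableSpace (ℕ → ℕ → ℕ) := borel _
  have _ : BorelSpace (ℕ → ℕ → ℕ) := ⟨rfl⟩
  have h1 : CanTab = {m | IsCS m} ∩ {m | @Theory.Model LM ℕ (strOf m) T} := by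
    ext m
    constructor
    · intro h
      exact ⟨h.1, (hT m h.1).mp h⟩
    · rintro ⟨h1, h2⟩
      exact (hT m h1).mpr h2
  rw [h1]
  exact isClosed_isCS.measurableSet.inter (measurable_theory T)

end H91R2.EndCan
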