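import Pool.Agent.H91R2.EndCan.FG

/-!
# Ternary relations, isomorphisms, cardinality and finite generation
-/

namespace H91R2.EndCan

universe u

section

variable {Y Y' E E' : Type u} {e : E → Y × Y × Y} {e' : E' → Y' × Y' × Y'}

theorem iso_iff : Nonempty (Sem e ≃* Sem e') ↔
    ∃ (F : Y ≃ Y') (G : E ≃ E'), IsTripHom e e' F G := by
  constructor
  · rintro ⟨φ⟩
    obtain ⟨c, hc0, hc⟩ := hom_deg φ.toMulHom
    obtain ⟨d, hd0, hd⟩ := hom_deg φ.symm.toMulHom
    have key : d * c = 1 := by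
      have h1 := hd (φ (Sem.bas e 24 (by omega)))
      have h2 : (φ.symm.toMulHom (φ (Sem.bas e 24 (by omega)))) = Sem.bas e 24 (by omega) :=
        φ.symm_apply_apply _
      have h3 := hc (Sem.bas e 24 (by omega))
      have h4 : (φ (Sem.bas e 24 (by omega))).deg = c * 24 := h3
      rw [h2, h4, Sem.deg_bas] at h1
      have h5 : 24 = (d * c) * 24 := by rw [mul_assoc]; exact h1
      omega
    have hc1 : c = 1 := Nat.eq_one_of_mul_eq_one_left key
    have hd1 : d = 1 := Nat.eq_one_of_mul_eq_one_right key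
    subst hc1 hd1
    simp only [one_mul] at hc hd
    obtain ⟨F, G, h, h1, h2, -⟩ := hom_scale_one _ hc
    obtain ⟨F', G', h', h1', h2', -⟩ := hom_scale_one _ hd
    have e1 : ∀ y, φ (Sem.vtx e y) = Sem.vtx e' (F y) := h1
    have e2 : ∀ r, φ (Sem.edg e r) = Sem.edg e' (G r) := h2
    have e3 : ∀ y, φ.symm (Sem.vtx e' y) = Sem.vtx e (F' y) := h1'
    have e4 : ∀ r, φ.symm (Sem.edg e' r) = Sem.edg e (G' r) := h2'
    refine ⟨⟨F, F', fun y => ?_, fun y => ?_⟩, ⟨G, G', fun r => ?_, fun r => ?_⟩, h⟩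
    · apply Sem.vtx_injective (e := e)
      rw [← e3, ← e1, φ.symm_apply_apply]
    · apply Sem.vtx_injective (e := e')
      rw [← e1, ← e3, φ.apply_symm_apply]
    · apply Sem.edg_injective (e := e)
      rw [← e4, ← e2, φ.symm_apply_apply]
    · apply Sem.edg_injective (e := e')
      rw [← e2, ← e4, φ.apply_symm_apply]
  · rintro ⟨F, G, h⟩
    have h' : IsTripHom e' e F.symm G.symm := by
      intro r
      have h1 := h (G.symm r)
      rw [G.apply_symm_apply] at h1
      rw [h1]
      simp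
    refine ⟨⟨⟨ofTrip h, ofTrip h', fun x => ?_, fun x => ?_⟩, (ofTrip h).map_mul'⟩⟩
    · apply Subtype.ext
      refine Prod.ext rfl ?_
      show Option.map _ (Option.map _ x.1.2) = x.1.2
      rw [Option.map_map, Sum.map_comp_map]
      simp
    · apply Subtype.ext
      refine Prod.ext rfl ?_
      show Option.map _ (Option.map _ x.1.2) = x.1.2
      rw [Option.map_map, Sum.map_comp_map]
      simp

theorem mk_sem (hE : Cardinal.mk E ≤ max (Cardinal.mk Y) Cardinal.aleph0) :
    Cardinal.mk (Sem e) = max (Cardinal.mk Y) Cardinal.aleph0 := by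
  set κ : Cardinal.{u} := max (Cardinal.mk Y) Cardinal.aleph0 with hκ
  have h0 : Cardinal.aleph0 ≤ κ := le_max_right _ _
  have hY : Cardinal.mk Y ≤ κ := le_max_left _ _
  apply le_antisymm
  · have h1 : Cardinal.mk (Sem e) ≤ Cardinal.mk (Pre Y E) := Cardinal.mk_subtype_le _
    refine h1.trans ?_
    have hN' : Cardinal.lift.{u} (Cardinal.mk ℕ) ≤ κ := by
      have : Cardinal.mk ℕ ≤ Cardinal.aleph0 := Cardinal.mk_le_aleph0
      have h := Cardinal.lift_le.{u}.mpr this
      rw [Cardinal.lift_aleph0] at h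
      exact h.trans h0
    have h6 : Cardinal.mk (Option (Y ⊕ E)) ≤ κ := by
      rw [Cardinal.mk_option, Cardinal.mk_sum]
      simp only [Cardinal.lift_id]
      have h7 : (1 : Cardinal.{u}) ≤ κ := Cardinal.one_le_aleph0.trans h0
      refine (add_le_add (add_le_add hY hE) h7).trans ?_
      rw [Cardinal.add_eq_self h0, Cardinal.add_eq_self h0]
    rw [Cardinal.mk_prod, Cardinal.lift_uzero]
    exact (mul_le_mul' hN' h6).trans (Cardinal.mul_eq_self h0).le
  · apply max_le
    · exact Cardinal.mk_le_of_injective (f := Sem.vtx e) Sem.vtx_injective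
    · rw [Cardinal.aleph0_le_mk_iff]
      refine Infinite.of_injective (fun n : ℕ => Sem.bas e (24 + n) (by omega)) ?_
      intro m n h
      have h1 := congrArg Sem.deg h
      rw [Sem.deg_bas, Sem.deg_bas] at h1
      omega

theorem sem_finGen [Finite Y] [Finite E] : FinGen (Sem e) := by
  refine ⟨{x | x.deg < 48}, ?_, ?_⟩
  · have hinj : Function.Injective (fun x : {x : Sem e | x.deg < 48} =>
        ((⟨x.1.deg, x.2⟩ : Fin 48), x.1.1.2)) := by
      intro x y h
      have h1 := congrArg (fun p => (p.1 : ℕ)) h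
      have h2 := congrArg Prod.snd h
      apply Subtype.ext
      apply Subtype.ext
      exact Prod.ext h1 h2
    exact Set.finite_coe_iff.mp (Finite.of_injective _ hinj)
  · rw [eq_top_iff]
    intro x _
    have h : ∀ n, ∀ x : Sem e, x.deg = n → x ∈ Subsemigroup.closure {x : Sem e | x.deg < 48} := by
      intro n
      induction n using Nat.strong_induction_on with
      | _ n ih =>
        intro x hx
        rcases Nat.lt_or_ge n 48 with h | h
        · exact Subsemigroup.subset_closure (by rw [← hx] at h; exact h)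
        · have h1 : x = Sem.bas e 24 (by omega) * Sem.bas e (n - 24) (by omega) := by
            apply Sem.eq_of_deg_ge
            · rw [Sem.deg_mul, Sem.deg_bas, Sem.deg_bas, hx]; omega
            · omega
          rw [h1]
          exact mul_mem (ih 24 (by omega) _ rfl) (ih (n - 24) (by omega) _ rfl)
    exact h _ x rfl

end

section ternary

variable {Y Y' : Type u}

/-- The semigroup attached to a ternary relation `ρ` on `Y`. -/
abbrev RelSem (ρ : Set (Y × Y × Y)) : Type u := Sem (Subtype.val : ρ → Y × Y × Y)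

/-- The identity is the only endomorphism of the ternary relation `ρ`. -/
def RigidRel (ρ : Set (Y × Y × Y)) : Prop :=
  ∀ F : Y → Y, (∀ a b c, (a, b, c) ∈ ρ → (F a, F b, F c) ∈ ρ) → ∀ y, F y = y

theorem rigidRel_iff (ρ : Set (Y × Y × Y)) :
    (∀ F G, IsTripHom (Subtype.val : ρ → Y × Y × Y) (Subtype.val : ρ → Y × Y × Y) F G → F = id) ↔
      RigidRel ρ := by
  constructor
  · intro h F hF y
    have h1 := h F (fun r => ⟨(F r.1.1, F r.1.2.1, F r.1.2.2), hF _ _ _ r.2⟩) (fun r => rfl)
    rw [h1]; rfl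
  · intro h F G hFG
    funext y
    refine h F (fun a b c habc => ?_) y
    have h1 := hFG ⟨(a, b, c), habc⟩
    have h2 := (G ⟨(a, b, c), habc⟩).2
    rw [h1] at h2
    exact h2

/-- Isomorphism of ternary relations. -/
def RelIso3 (ρ : Set (Y × Y × Y)) (ρ' : Set (Y' × Y' × Y')) : Prop :=
  ∃ F : Y ≃ Y', ∀ a b c, (a, b, c) ∈ ρ ↔ (F a, F b, F c) ∈ ρ'

theorem relSem_iso_iff (ρ : Set (Y × Y × Y)) (ρ' : Set (Y' × Y' × Y')) :
    Nonempty (RelSem ρ ≃* RelSem ρ') ↔ RelIso3 ρ ρ' := by
  rw [iso_iff]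
  constructor
  · rintro ⟨F, G, h⟩
    refine ⟨F, fun a b c => ⟨fun habc => ?_, fun habc => ?_⟩⟩
    · have h1 := h ⟨(a, b, c), habc⟩
      have h2 := (G ⟨(a, b, c), habc⟩).2
      rw [h1] at h2
      exact h2
    · set r := G.symm ⟨(F a, F b, F c), habc⟩ with hr
      have h1 := h r
      rw [hr, G.apply_symm_apply, ← hr] at h1
      have h2 : (F a, F b, F c) = (F r.1.1, F r.1.2.1, F r.1.2.2) := h1
      simp only [Prod.mk.injEq, EmbeddingLike.apply_eq_iff_eq] at h2
      have h3 : (a, b, c) = r.1 := Prod.ext h2.1 (Prod.ext h2.2.1 h2.2.2)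
      rw [h3]
      exact r.2
  · rintro ⟨F, hF⟩
    refine ⟨F, ⟨fun r => ⟨(F r.1.1, F r.1.2.1, F r.1.2.2), (hF _ _ _).mp r.2⟩,
      fun r => ⟨(F.symm r.1.1, F.symm r.1.2.1, F.symm r.1.2.2), ?_⟩, fun r => ?_, fun r => ?_⟩,
      fun r => rfl⟩
    · rw [hF]
      simp only [Equiv.apply_symm_apply]
      exact r.2
    · apply Subtype.ext
      simp
    · apply Subtype.ext
      simp

theorem mk_relSem (ρ : Set (Y × Y × Y)) :
    Cardinal.mk (RelSem ρ) = max (Cardinal.mk Y) Cardinal.aleph0 := by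
  apply mk_sem
  refine (Cardinal.mk_subtype_le _).trans ?_
  rw [Cardinal.mk_prod, Cardinal.mk_prod]
  simp only [Cardinal.lift_id]
  have h0 : Cardinal.aleph0 ≤ max (Cardinal.mk Y) Cardinal.aleph0 := le_max_right _ _
  have hY : Cardinal.mk Y ≤ max (Cardinal.mk Y) Cardinal.aleph0 := le_max_left _ _
  refine (mul_le_mul' hY (mul_le_mul' hY hY)).trans ?_
  rw [Cardinal.mul_eq_self h0, Cardinal.mul_eq_self h0]

/-- **Coding theorem for ternary relations.** -/
theorem relSem_coding [Nontrivial Y] (ρ : Set (Y × Y × Y)) :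
    Cardinal.mk (RelSem ρ) = max (Cardinal.mk Y) Cardinal.aleph0 ∧
    ¬ Cancel (RelSem ρ) ∧ (∀ x : RelSem ρ, x * x ≠ x) ∧ (Finite Y → FinGen (RelSem ρ)) ∧
    (EndCancel (RelSem ρ) ↔ RigidRel ρ) ∧ (EndPowers (RelSem ρ) ↔ RigidRel ρ) := by
  obtain ⟨y, y', hy⟩ := exists_pair_ne Y
  have h := coding (e := (Subtype.val : ρ → Y × Y × Y)) Subtype.val_injective
  rw [rigidRel_iff] at h
  refine ⟨mk_relSem ρ, not_cancel y y' hy, fun x hx => ?_, fun hf => sem_finGen, h.1, h.2⟩
  have h1 := congrArg Sem.deg hx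
  rw [Sem.deg_mul] at h1
  have := Sem.deg_pos x
  omega

end ternary

end H91R2.EndCan
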