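import Pool.Agent.H91R2.EndCan.FO
import Pool.Agent.H91R2.EndCan.FG2
import Pool.Agent.H91R2.EndCan.Iso
import Pool.Agent.H91R2.EndCan.Count

/-!
# Assembly
-/

namespace H91R2.EndCan

open EndRat (Rel isoCount isoSetoid isoCount_eq)

universe u

/-- `S` has a positive additive function to `ℕ` such that two elements with the same value
`≥ 24` coincide: `S` differs from a numerical semigroup in finitely many degrees only. -/
def NearNat (S : Type u) [Mul S] : Prop :=
  ∃ φ : S → ℕ, (∀ x y, φ (x * y) = φ x + φ y) ∧ (∀ x, 0 < φ x) ∧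
    ∀ x y, φ x = φ y → 24 ≤ φ x → x = y

theorem nearNat_sem {Y E : Type u} (e : E → Y × Y × Y) : NearNat (Sem e) :=
  ⟨Sem.deg, Sem.deg_mul, Sem.deg_pos, fun _ _ h1 h2 => Sem.eq_of_deg_ge h1 h2⟩

/-- the coding statement -/
theorem coding_final (Y : Type u) [Nontrivial Y] (ρ : Set (Y × Y × Y)) :
    Cardinal.mk (RelSem ρ) = max (Cardinal.mk Y) Cardinal.aleph0 ∧
    NearNat (RelSem ρ) ∧ (Finite Y → FinGen (RelSem ρ)) ∧ ¬ Cancel (RelSem ρ) ∧
    (EndCancel (RelSem ρ) ↔ RigidRel ρ) ∧ (EndPowers (RelSem ρ) ↔ RigidRel ρ) := by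
  obtain ⟨h1, h2, h3, h4, h5, h6⟩ := relSem_coding ρ
  exact ⟨h1, nearNat_sem _, h4, h2, h5, h6⟩

/-- the number of isomorphism types -/
theorem count_final (A : Type u) [Infinite A] :
    isoCount A (fun s => @EndCancel A s ∧ @EndPowers A s ∧ ¬ @Cancel A s.toMul) =
      2 ^ Cardinal.mk A := by
  classical
  obtain ⟨r, hr⟩ := exists_wellFoundedLT A
  let _ := r
  have : WellFoundedLT A := hr
  exact isoCount_eq A (fun S s => @EndCancel S s ∧ @EndPowers S s ∧ ¬ @Cancel S s.toMul)
    (fun S T s t e h => ⟨@EndPowers.endCancel T t (@EndPowers.of_equiv S T s t e h.2.1),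
      @EndPowers.of_equiv S T s t e h.2.1,
      fun hc => h.2.2 (@Cancel.of_equiv S T s t e hc)⟩)
    (fun X => RS X) (fun X => inferInstance) (fun X => mk_RS X)
    (fun X => ⟨(RS_endPowers X).endCancel, RS_endPowers X, sem_fam_not_cancel _⟩)
    (fun X Y h => RS_iso h)

section tables

open MeasureTheory

/-- The table `m` has a positive additive function to `ℕ` such that two elements with the same
value `≥ 24` coincide. -/
def IsNearNat (m : ℕ → ℕ → ℕ) : Prop :=
  ∃ φ : ℕ → ℕ, (∀ a b, φ (m a b) = φ a + φ b) ∧ (∀ a, 0 < φ a) ∧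
    ∀ a b, φ a = φ b → 24 ≤ φ a → a = b

theorem tab_nearNat (W : Set (List ℕ)) : IsNearNat (tab W) := by
  refine ⟨fun n => ((numW W).symm n).deg, fun a b => ?_, fun a => Sem.deg_pos _, fun a b h1 h2 => ?_⟩
  · show ((numW W).symm ((numW W) ((numW W).symm a * (numW W).symm b))).deg = _
    rw [Equiv.symm_apply_apply, Sem.deg_mul]
  · exact (numW W).symm.injective (Sem.eq_of_deg_ge h1 h2)

/-- completeness with values close to a numerical semigroup -/
theorem complete_final (A : Set (ℕ → ℕ)) (hA : AnalyticSet A) :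
    ∃ Φ : (ℕ → ℕ) → (ℕ → ℕ → ℕ), Continuous Φ ∧ ∀ x, IsCS (Φ x) ∧ IsNearNat (Φ x) ∧
      ¬ IsCancelTab (Φ x) ∧ (Φ x ∈ CanTab ↔ x ∉ A) ∧ (x ∉ A → OnlyPowers (Φ x)) := by
  obtain ⟨T, hT⟩ := tree_rep A hA
  let W : (ℕ → ℕ) → Set (List ℕ) := fun x => {u | (path x u.length, u) ∈ T}
  have hW : ∀ s, IsClopen {x | s ∈ W x} := by
    intro s
    constructor
    · rw [← isOpen_compl_iff]
      have := isOpen_path s.length (fun t => {_x | (t, s) ∉ T}) (fun t => isOpen_const)
      exact this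
    · exact isOpen_path s.length (fun t => {_x | (t, s) ∈ T}) (fun t => isOpen_const)
  have hb : ∀ x, (∃ y, IsBranch (W x) y) ↔ x ∈ A := by
    intro x
    rw [hT x]
    refine exists_congr fun y => forall_congr' fun n => ?_
    show (path x (path y (n + 1)).length, path y (n + 1)) ∈ T ↔ _
    rw [path_length]
  refine ⟨fun x => tab (W x), continuous_tab W hW, fun x => ⟨tab_isCS _, tab_nearNat _,
    tab_not_cancel _, ?_, ?_⟩⟩
  · rw [tab_mem, hb]
  · intro h
    exact tab_onlyPowers _ (by rw [hb]; exact h)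

/-- No Borel condition describes membership, even among the tables close to a numerical
semigroup. -/
theorem no_borel_final : ¬ ∃ B : Set (ℕ → ℕ → ℕ), @MeasurableSet _ (borel (ℕ → ℕ → ℕ)) B ∧
    ∀ m, IsCS m → IsNearNat m → (m ∈ CanTab ↔ m ∈ B) := by
  rintro ⟨B, hB, h⟩
  let _ : MeasurableSpace (ℕ → ℕ → ℕ) := borel _
  have _ : BorelSpace (ℕ → ℕ → ℕ) := ⟨rfl⟩
  refine not_analytic_aux B (fun x => ?_) hB.analyticSet
  rw [← h _ (tab_isCS _) (tab_nearNat _), tab_mem]

/-- No first-order theory describes membership, even among the tables close to a numerical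
semigroup. -/
theorem no_theory_final : ¬ ∃ T : LM.Theory, ∀ m : ℕ → ℕ → ℕ, IsCS m → IsNearNat m →
    (m ∈ CanTab ↔ @FirstOrder.Language.Theory.Model LM ℕ (strOf m) T) := by
  rintro ⟨T, hT⟩
  exact no_borel_final ⟨_, measurable_theory T, hT⟩

end tables

end H91R2.EndCan
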