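import Pool.Agent.H91R2.EndCan.Defs

/-!
# Homomorphisms between the semigroups `Sem e`
-/

namespace H91R2.EndCan

universe u v

section general

variable {S : Type u} [CommSemigroup S]

theorem pw_mul (x y : S) (n : ℕ) : pw (x * y) n = pw x n * pw y n := by
  induction n with
  | zero => rfl
  | succ n ih => show pw (x * y) n * (x * y) = pw x n * x * (pw y n * y); rw [ih, mul_mul_mul_comm]

theorem pw_add (x : S) (m n : ℕ) : pw x m * pw x n = pw x (m + n + 1) := by
  induction n with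
  | zero => rfl
  | succ n ih =>
    show pw x m * (pw x n * x) = pw x (m + n + 1) * x
    rw [← mul_assoc, ih]

theorem map_pw {T : Type v} [CommSemigroup T] (f : S →ₙ* T) (x : S) (n : ℕ) :
    f (pw x n) = pw (f x) n := by
  induction n with
  | zero => rfl
  | succ n ih => show f (pw x n * x) = pw (f x) n * f x; rw [map_mul, ih]

/-- the power endomorphism -/
def pwHom (S : Type u) [CommSemigroup S] (n : ℕ) : S →ₙ* S where
  toFun x := pw x n
  map_mul' x y := pw_mul x y n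

theorem EndPowers.endCancel (h : EndPowers S) : EndCancel S := by
  intro f g k hfg
  obtain ⟨a, ha⟩ := h.1 f
  obtain ⟨b, hb⟩ := h.1 g
  obtain ⟨c, hc⟩ := h.1 k
  have h1 : ∀ x : S, pw x (a + b + 1) = pw x (a + c + 1) := by
    intro x
    have := congrArg (fun k : S →ₙ* S => k x) hfg
    have h2 : f x * g x = f x * k x := this
    rwa [ha, hb, hc, pw_add, pw_add] at h2
  have h2 : b = c := by have := h.2 _ _ h1; omega
  ext x
  rw [hb, hc, h2]

end general

section sem

variable {Y Y' : Type u} {E E' : Type u} {e : E → Y × Y × Y} {e' : E' → Y' × Y' × Y'}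

theorem additive_eq (ψ : Sem e → ℕ) (hψ : ∀ x y, ψ (x * y) = ψ x + ψ y) (hpos : ∀ x, 0 < ψ x) :
    ∃ c : ℕ, 0 < c ∧ ∀ x, ψ x = c * x.deg := by
  set b : ℕ → Sem e := fun n => Sem.bas e (24 + n) (by omega) with hb
  have hbdeg : ∀ n, (b n).deg = 24 + n := fun n => rfl
  have hbb : ∀ m n, b m * b n = b (m + n + 24) := by
    intro m n
    apply Sem.eq_of_deg_ge
    · rw [Sem.deg_mul, hbdeg, hbdeg, hbdeg]; omega
    · rw [Sem.deg_mul, hbdeg, hbdeg]; omega
  have hq : ∀ m n, ψ (b m) + ψ (b n) = ψ (b (m + n + 24)) := fun m n => by rw [← hψ, hbb]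
  set c : ℤ := (ψ (b 1) : ℤ) - ψ (b 0) with hc
  have hlin : ∀ n : ℕ, (ψ (b n) : ℤ) = ψ (b 0) + c * n := by
    intro n
    induction n with
    | zero => simp
    | succ n ih =>
      have h1 := hq (n + 1) 0
      have h2 := hq n 1
      have h3 : n + 1 + 0 + 24 = n + 1 + 24 := by omega
      rw [h3] at h1
      have h4 : (ψ (b (n + 1)) : ℤ) + ψ (b 0) = ψ (b n) + ψ (b 1) := by
        have : ψ (b (n + 1)) + ψ (b 0) = ψ (b n) + ψ (b 1) := h1.trans h2.symm
        exact_mod_cast this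
      push_cast
      linarith
  have h0 : (ψ (b 0) : ℤ) = 24 * c := by
    have h1 := hq 0 0
    have h2 := hlin (0 + 0 + 24)
    rw [← h1] at h2
    push_cast at h2
    linarith
  have hcpos : 0 < c := by
    have := hpos (b 0)
    have h1 : (0 : ℤ) < ψ (b 0) := by exact_mod_cast this
    linarith
  have hx : ∀ x : Sem e, (ψ x : ℤ) = c * x.deg := by
    intro x
    have h1 : x * b 0 = b x.deg := by
      apply Sem.eq_of_deg_ge
      · rw [Sem.deg_mul, hbdeg, hbdeg]; omega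
      · rw [Sem.deg_mul, hbdeg]; omega
    have h2 := hψ x (b 0)
    rw [h1] at h2
    have h3 := hlin x.deg
    rw [h2] at h3
    push_cast at h3
    linarith
  refine ⟨c.toNat, by omega, fun x => ?_⟩
  have h1 := hx x
  have h2 : (c.toNat : ℤ) = c := Int.toNat_of_nonneg hcpos.le
  rw [← h2] at h1
  exact_mod_cast h1

theorem Sem.deg_pos (x : Sem e) : 0 < x.deg := by
  have := Sem.deg_cases x
  omega

theorem hom_deg (Φ : Sem e →ₙ* Sem e') : ∃ c, 0 < c ∧ ∀ x, (Φ x).deg = c * x.deg :=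
  additive_eq (fun x => (Φ x).deg) (fun x y => by rw [map_mul, Sem.deg_mul])
    (fun x => Sem.deg_pos _)

theorem avoid (x : Sem e) {c : ℕ} (hc : 2 ≤ c) :
    c * x.deg ≠ 8 ∧ c * x.deg ≠ 9 ∧ c * x.deg ≠ 21 ∧ c * x.deg ≠ 22 ∧ c * x.deg ≠ 23 := by
  have hd := Sem.deg_cases x
  rcases Nat.lt_or_ge c 3 with h | h
  · have : c = 2 := by omega
    subst this
    omega
  · have h1 : 3 * 8 ≤ c * x.deg := Nat.mul_le_mul h (by omega)
    omega

theorem eq_of_scale {x : Sem e} {z w : Sem e'} {c : ℕ} (hc : 2 ≤ c) (hz : z.deg = c * x.deg)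
    (hw : w.deg = c * x.deg) : z = w :=
  Sem.eq_of_deg (hz.trans hw.symm) (hz ▸ avoid x hc)

/-- Homomorphism of families of triples. -/
def IsTripHom (e : E → Y × Y × Y) (e' : E' → Y' × Y' × Y') (F : Y → Y') (G : E → E') : Prop :=
  ∀ r, e' (G r) = (F (e r).1, F (e r).2.1, F (e r).2.2)

theorem IsTripHom.coord {F : Y → Y'} {G : E → E'} (h : IsTripHom e e' F G) (j : ℕ) (r : E) :
    coord j (e' (G r)) = F (coord j (e r)) := by
  rw [h r]
  match j with
  | 0 => rfl
  | 1 => rfl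
  | (n + 2) => rfl

theorem isTripHom_of_coord {F : Y → Y'} {G : E → E'}
    (h : ∀ (j : Fin 3) r, EndCan.coord (j : ℕ) (e' (G r)) = F (EndCan.coord (j : ℕ) (e r))) :
    IsTripHom e e' F G := by
  intro r
  refine Prod.ext (h 0 r) (Prod.ext (h 1 r) (h 2 r))

theorem valid_map (F : Y → Y') (G : E → E') {a : Pre Y E} (h : Valid a) :
    Valid (a.1, a.2.map (Sum.map F G)) := by
  obtain ⟨d, w⟩ := a
  rcases w with _ | (y | r)
  · exact h
  · exact h
  · exact h

theorem proj_map {F : Y → Y'} {G : E → E'} (h : IsTripHom e e' F G) (j : ℕ) (w : Y ⊕ E) :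
    proj e' j (Sum.map F G w) = Sum.map F G (proj e j w) := by
  rcases w with y | r
  · rfl
  · simp only [Sum.map_inr, proj, Sum.map_inl, h.coord]

theorem pay_map {F : Y → Y'} {G : E → E'} (h : IsTripHom e e' F G) (a b : Pre Y E) :
    pay e' (a.1, a.2.map (Sum.map F G)) (b.1, b.2.map (Sum.map F G)) =
      (pay e a b).map (Sum.map F G) := by
  unfold pay
  simp only
  have hp : ∀ j, (proj e' j) ∘ (Sum.map F G) = (Sum.map F G) ∘ (proj e j) := fun j =>
    funext fun w => proj_map h j w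
  split_ifs
  · rfl
  · rfl
  · rw [Option.map_map, Option.map_map, hp]
  · rw [Option.map_map, Option.map_map, hp]
  · rfl

/-- The homomorphism of semigroups induced by a homomorphism of families of triples. -/
def ofTrip {F : Y → Y'} {G : E → E'} (h : IsTripHom e e' F G) : Sem e →ₙ* Sem e' where
  toFun x := ⟨(x.1.1, x.1.2.map (Sum.map F G)), valid_map F G x.2⟩
  map_mul' x y := by
    apply Subtype.ext
    exact Prod.ext rfl (pay_map h x.1 y.1).symm

theorem ofTrip_deg {F : Y → Y'} {G : E → E'} (h : IsTripHom e e' F G) (x : Sem e) :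
    (ofTrip h x).deg = x.deg := rfl

theorem ofTrip_vtx {F : Y → Y'} {G : E → E'} (h : IsTripHom e e' F G) (y : Y) :
    ofTrip h (Sem.vtx e y) = Sem.vtx e' (F y) := rfl

/-- analysis of the homomorphisms that preserve degrees -/
theorem hom_scale_one (Φ : Sem e →ₙ* Sem e') (hΦ : ∀ x, (Φ x).deg = x.deg) :
    ∃ F G, IsTripHom e e' F G ∧ (∀ y, Φ (Sem.vtx e y) = Sem.vtx e' (F y)) ∧
      (∀ r, Φ (Sem.edg e r) = Sem.edg e' (G r)) ∧
      (∀ j y, Φ (Sem.cop e j y) = Sem.cop e' j (F y)) ∧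
      (∀ n h, Φ (Sem.bas e n h) = Sem.bas e' n h) := by
  have h1 : ∀ y, ∃ y', Φ (Sem.vtx e y) = Sem.vtx e' y' := fun y => Sem.exists_vtx (hΦ _)
  have h2 : ∀ r, ∃ r', Φ (Sem.edg e r) = Sem.edg e' r' := fun r => Sem.exists_edg (hΦ _)
  choose F hF using h1
  choose G hG using h2
  have hb : ∀ n h, Φ (Sem.bas e n h) = Sem.bas e' n h := by
    intro n h
    refine Sem.eq_of_deg (hΦ _) ?_
    rw [hΦ]
    have : (Sem.bas e n h).deg = n := rfl
    rw [this]
    omega
  have hc : ∀ j y, Φ (Sem.cop e j y) = Sem.cop e' j (F y) := by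
    intro j y
    have hj := j.2
    have h : 12 ≤ 13 + (j : ℕ) ∧ 13 + (j : ℕ) ≠ 21 ∧ 13 + (j : ℕ) ≠ 22 ∧ 13 + (j : ℕ) ≠ 23 := by
      omega
    rw [← Sem.vtx_mul y j h, map_mul, hF, hb, Sem.vtx_mul]
  refine ⟨F, G, isTripHom_of_coord fun j r => ?_, hF, hG, hc, hb⟩
  have hj := j.2
  have h : 12 ≤ 12 + (j : ℕ) ∧ 12 + (j : ℕ) ≠ 21 ∧ 12 + (j : ℕ) ≠ 22 ∧ 12 + (j : ℕ) ≠ 23 := by
    omega
  have h3 := congrArg Φ (Sem.edg_mul (e := e) r j h)
  rw [map_mul, hG, hb, Sem.edg_mul, hc] at h3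
  exact Sem.cop_injective j h3

theorem hom_scale_one_eq_id (he : Function.Injective e)
    (hr : ∀ F G, IsTripHom e e F G → F = id) (Φ : Sem e →ₙ* Sem e)
    (hΦ : ∀ x, (Φ x).deg = x.deg) (x : Sem e) : Φ x = x := by
  obtain ⟨F, G, hFG, h1, h2, h3, h4⟩ := hom_scale_one Φ hΦ
  have hF : F = id := hr F G hFG
  have hG : G = id := by
    funext r
    apply he
    rw [hFG r, hF]
    rfl
  subst hF hG
  rcases Sem.cases x with ⟨y, rfl⟩ | ⟨r, rfl⟩ | ⟨j, y, rfl⟩ | ⟨n, hn, rfl⟩
  · exact h1 y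
  · exact h2 r
  · exact h3 j y
  · exact h4 n hn

theorem Sem.deg_pw (x : Sem e) (n : ℕ) : (pw x n).deg = (n + 1) * x.deg := by
  induction n with
  | zero => show x.deg = (0 + 1) * x.deg; ring
  | succ n ih => show (pw x n * x).deg = _; rw [Sem.deg_mul, ih]; ring

theorem endPowers_of_rigid [Nonempty Y] (he : Function.Injective e)
    (hr : ∀ F G, IsTripHom e e F G → F = id) : EndPowers (Sem e) := by
  constructor
  · intro f
    obtain ⟨c, hc0, hc⟩ := hom_deg f
    refine ⟨c - 1, fun x => ?_⟩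
    rcases Nat.lt_or_ge c 2 with h | h
    · have : c = 1 := by omega
      subst this
      simp only [one_mul] at hc
      exact hom_scale_one_eq_id he hr f hc x
    · apply eq_of_scale h (hc x)
      rw [Sem.deg_pw]
      congr 1
      omega
  · intro m n h
    obtain ⟨y⟩ := ‹Nonempty Y›
    have h1 := congrArg Sem.deg (h (Sem.vtx e y))
    rw [Sem.deg_pw, Sem.deg_pw, Sem.deg_vtx] at h1
    omega

theorem rigid_of_endCancel (h : EndCancel (Sem e)) : ∀ F G, IsTripHom e e F G → F = id := by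
  intro F G hFG
  have h1 : (MulHom.id (Sem e)) * (ofTrip hFG) = (MulHom.id (Sem e)) * (MulHom.id (Sem e)) := by
    ext x
    show x * ofTrip hFG x = x * x
    have hd : (x * x).deg = 2 * x.deg := by rw [Sem.deg_mul]; ring
    apply eq_of_scale (x := x) (le_refl 2) _ hd
    rw [Sem.deg_mul, ofTrip_deg]; ring
  have h2 := h _ _ _ h1
  funext y
  have h3 := congrArg (fun k : Sem e →ₙ* Sem e => k (Sem.vtx e y)) h2
  have h4 : ofTrip hFG (Sem.vtx e y) = Sem.vtx e y := h3
  rw [ofTrip_vtx] at h4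
  exact Sem.vtx_injective h4

/-- **Coding theorem.** -/
theorem coding [Nonempty Y] (he : Function.Injective e) :
    (EndCancel (Sem e) ↔ ∀ F G, IsTripHom e e F G → F = id) ∧
    (EndPowers (Sem e) ↔ ∀ F G, IsTripHom e e F G → F = id) :=
  ⟨⟨rigid_of_endCancel, fun h => (endPowers_of_rigid he h).endCancel⟩,
    ⟨fun h => rigid_of_endCancel h.endCancel, endPowers_of_rigid he⟩⟩

theorem not_cancel (y y' : Y) (h : y ≠ y') : ¬ Cancel (Sem e) := by
  intro hc
  have h1 : Sem.bas e 24 (by omega) * Sem.vtx e y = Sem.bas e 24 (by omega) * Sem.vtx e y' := by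
    apply Sem.eq_of_deg_ge
    · rfl
    · rw [Sem.deg_mul, Sem.deg_bas, Sem.deg_vtx]; omega
  exact h (Sem.vtx_injective (hc _ _ _ h1))

theorem iso_trip (φ : Sem e ≃* Sem e') : (∃ F G, IsTripHom e e' F G) ∧
    ∃ F G, IsTripHom e' e F G := by
  obtain ⟨c, hc0, hc⟩ := hom_deg φ.toMulHom
  obtain ⟨d, hd0, hd⟩ := hom_deg φ.symm.toMulHom
  have key : d * c = 1 := by
    have h1 := hd (φ (Sem.bas e 24 (by omega)))
    have h2 : (φ.symm.toMulHom (φ (Sem.bas e 24 (by omega)))) = Sem.bas e 24 (by omega) :=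
      φ.symm_apply_apply _
    have h3 := hc (Sem.bas e 24 (by omega))
    have h4 : (φ (Sem.bas e 24 (by omega))).deg = c * 24 := h3
    rw [h2, h4, Sem.deg_bas] at h1
    have h5 : 24 = (d * c) * 24 := by rw [mul_assoc]; exact h1
    omega
  have hc1 : c = 1 := Nat.eq_one_of_mul_eq_one_left key
  have hd1 : d = 1 := Nat.eq_one_of_mul_eq_one_right key
  subst hc1 hd1
  simp only [one_mul] at hc hd
  obtain ⟨F, G, h, -⟩ := hom_scale_one _ hc
  obtain ⟨F', G', h', -⟩ := hom_scale_one _ hd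
  exact ⟨⟨F, G, h⟩, ⟨F', G', h'⟩⟩

end sem

end H91R2.EndCan
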