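import Pool.Agent.H91R2.EndCan.Homs

/-!
# Necessary conditions and classes in which cancellative is equivalent to `EndCancel`
-/

namespace H91R2.EndCan

universe u

variable {S : Type u} [CommSemigroup S]

theorem Cancel.endCancel (h : Cancel S) : EndCancel S := by
  rw [endCancel_iff]
  intro f g k hx x
  exact h _ _ _ (hx x)

/-- the constant endomorphism at an idempotent -/
def constHom (e : S) (he : e * e = e) : S →ₙ* S where
  toFun _ := e
  map_mul' _ _ := he.symm

/-- idempotents are identities -/
theorem EndCancel.idem (h : EndCancel S) {e : S} (he : e * e = e) (x : S) : e * x = x := by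
  rw [endCancel_iff] at h
  refine h (constHom e he) (constHom e he * MulHom.id S) (MulHom.id S) (fun y => ?_) x
  show e * (e * y) = e * y
  rw [← mul_assoc, he]

theorem pw_idem {e : S} (he : e * e = e) (n : ℕ) : pw e n = e := by
  induction n with
  | zero => rfl
  | succ n ih => show pw e n * e = e; rw [ih, he]

/-- `S` is a group. -/
def IsGrp (S : Type u) [Mul S] : Prop := ∃ e : S, (∀ x : S, e * x = x) ∧ ∀ x : S, ∃ y, x * y = e

theorem IsGrp.cancel (h : IsGrp S) : Cancel S := by
  obtain ⟨e, he, hinv⟩ := h
  intro x y z hxyz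
  obtain ⟨w, hw⟩ := hinv x
  have h1 : w * (x * y) = w * (x * z) := by rw [hxyz]
  rw [← mul_assoc, ← mul_assoc, mul_comm w x, hw, he, he] at h1
  exact h1

/-- Periodic semigroups: `End(S)` is cancellative iff `S` is a group. -/
theorem periodic_iff [Nonempty S] (hp : ∀ x : S, ∃ n, pw x n * pw x n = pw x n) :
    EndCancel S ↔ IsGrp S := by
  constructor
  · intro h
    obtain ⟨x₀⟩ := ‹Nonempty S›
    obtain ⟨n, hn⟩ := hp x₀
    refine ⟨pw x₀ n, fun x => h.idem hn x, fun x => ?_⟩
    obtain ⟨m, hm⟩ := hp x
    have h1 : pw x m = pw x₀ n := by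
      have h2 := h.idem hm (pw x₀ n)
      have h3 := h.idem hn (pw x m)
      rw [mul_comm] at h3
      rw [← h3, h2]
    rw [← h1]
    cases m with
    | zero => exact ⟨x, hm⟩
    | succ m => exact ⟨pw x m, mul_comm _ _⟩
  · exact fun h => h.cancel.endCancel

section graded

variable (φ : S → ℕ)

/-- `φ` is additive -/
def IsAdd (φ : S → ℕ) : Prop := ∀ x y, φ (x * y) = φ x + φ y

/-- power with natural exponent; the exponent `0` gives `e` -/
def pz (e b : S) : ℕ → S
  | 0 => e
  | (n + 1) => pw b n

theorem pz_add {e : S} (he : ∀ x, e * x = x) (b : S) (m n : ℕ) :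
    pz e b m * pz e b n = pz e b (m + n) := by
  match m, n with
  | 0, 0 => exact he e
  | 0, (n + 1) => rw [Nat.zero_add]; exact he _
  | (m + 1), 0 => rw [Nat.add_zero, mul_comm]; exact he _
  | (m + 1), (n + 1) =>
    show pw b m * pw b n = pz e b (m + 1 + (n + 1))
    rw [pw_add]
    have : m + 1 + (n + 1) = (m + n + 1) + 1 := by omega
    rw [this]
    rfl

theorem pz_mul {e : S} (he : ∀ x, e * x = x) (a b : S) (m : ℕ) :
    pz e a m * pz e b m = pz e (a * b) m := by
  match m with
  | 0 => exact he e
  | (m + 1) => exact (pw_mul a b m).symm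

/-- The graded power endomorphism in a monoid. -/
def gz {φ : S → ℕ} (hφ : IsAdd φ) {e : S} (he : ∀ x, e * x = x) (b : S) : S →ₙ* S where
  toFun x := pz e b (φ x)
  map_mul' x y := by rw [hφ, pz_add he]

/-- The graded power endomorphism in a semigroup. -/
def gp {φ : S → ℕ} (hφ : IsAdd φ) (hpos : ∀ x, 0 < φ x) (b : S) : S →ₙ* S where
  toFun x := pw b (φ x - 1)
  map_mul' x y := by
    rw [hφ, pw_add]
    have h1 := hpos x
    have h2 := hpos y
    congr 1
    omega

theorem key_graded {φ : S → ℕ} (hφ : IsAdd φ) (hS : (∀ x, 0 < φ x) ∨ ∃ e : S, ∀ x, e * x = x)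
    (h : EndCancel S) {a b c : S} (habc : a * b = a * c) {x : S} {n : ℕ} (hx : φ x = n + 1) :
    pw b n = pw c n := by
  rw [endCancel_iff] at h
  rcases hS with hpos | ⟨e, he⟩
  · have h1 := h (gp hφ hpos a) (gp hφ hpos b) (gp hφ hpos c) (fun y => by
      show pw a _ * pw b _ = pw a _ * pw c _
      rw [← pw_mul, ← pw_mul, habc]) x
    have h2 : pw b (φ x - 1) = pw c (φ x - 1) := h1
    rw [hx] at h2
    exact h2
  · have h1 := h (gz hφ he a) (gz hφ he b) (gz hφ he c) (fun y => by
      show pz e a _ * pz e b _ = pz e a _ * pz e c _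
      rw [pz_mul he, pz_mul he, habc]) x
    have h2 : pz e b (φ x) = pz e c (φ x) := h1
    rw [hx] at h2
    exact h2

/-- If `S` has an additive function to `ℕ` which takes the value `1` and is positive (or `S` has
an identity), then `End(S)` is cancellative iff `S` is. -/
theorem graded_one_iff {φ : S → ℕ} (hφ : IsAdd φ)
    (hS : (∀ x, 0 < φ x) ∨ ∃ e : S, ∀ x, e * x = x) (h1 : ∃ x, φ x = 1) :
    EndCancel S ↔ Cancel S := by
  constructor
  · intro h a b c habc
    obtain ⟨x, hx⟩ := h1
    exact key_graded hφ hS h habc (n := 0) hx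
  · exact fun h => h.endCancel

/-- `S` is power-cancellative -/
def PowCancel (S : Type u) [Mul S] : Prop := ∀ (x y : S) (n : ℕ), pw x n = pw y n → x = y

theorem graded_powCancel_iff {φ : S → ℕ} (hφ : IsAdd φ)
    (hS : (∀ x, 0 < φ x) ∨ ∃ e : S, ∀ x, e * x = x) (h1 : ∃ x, 0 < φ x) (hp : PowCancel S) :
    EndCancel S ↔ Cancel S := by
  constructor
  · intro h a b c habc
    obtain ⟨x, hx⟩ := h1
    exact hp _ _ _ (key_graded hφ hS h habc (n := φ x - 1) (x := x) (by omega))
  · exact fun h => h.endCancel

end graded

section layers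

/-- The semigroup `S` is a chain of `m + 1` layers (`lev x = 0` is the top ideal): the level of a
product is the minimum, each layer is cancellative without idempotents, and every element of a
layer `j + 1` has a multiple inside the same layer which acts trivially on the layer `j`. -/
structure Layered (S : Type u) [Mul S] (m : ℕ) (lev : S → ℕ) : Prop where
  le : ∀ x, lev x ≤ m
  surj : ∀ j, j ≤ m → ∃ x, lev x = j
  mul : ∀ x y, lev (x * y) = min (lev x) (lev y)
  cancel : ∀ x y z, lev x = lev y → lev x = lev z → x * y = x * z → y = z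
  idem : ∀ x : S, x * x ≠ x
  inv : ∀ x, 0 < lev x → ∃ y, lev y = lev x ∧ ∀ w, lev w + 1 = lev x → x * y * w = w

variable {m : ℕ} {lev : S → ℕ}

theorem Layered.absorb (h : Layered S m lev) {s t : S} (hst : s * t = t) : lev t < lev s := by
  have h1 := h.mul s t
  rw [hst] at h1
  have h2 : lev t ≤ lev s := by rw [h1]; exact min_le_left _ _
  rcases h2.lt_or_eq with h3 | h3
  · exact h3
  · exfalso
    -- in one cancellative layer
    have h4 : t * (s * s) = t * s := by
      rw [mul_comm t s, hst, ← mul_assoc, mul_comm t s, hst, mul_comm t s, hst]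
    have h5 : lev (s * s) = lev s := by rw [h.mul, min_self]
    exact h.idem s (h.cancel t (s * s) s (h3.trans h5.symm) h3 h4)

/-- a chain of absorbing elements below level `j` -/
theorem Layered.chain_below (h : Layered S m lev) (f : S →ₙ* S) :
    ∀ j, ∀ x, lev x = j → lev (f x) = j ∨ j < lev (f x) := by
  intro j
  induction j with
  | zero => intro x _; omega
  | succ j ih =>
    intro x hx
    obtain ⟨y, hy, hxy⟩ := h.inv x (by omega)
    obtain ⟨w, hw⟩ := h.surj j (by have := h.le x; omega)
    have h1 := hxy w (by omega)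
    have h2 : f (x * y) * f w = f w := by rw [← map_mul, h1]
    have h3 := h.absorb h2
    have h4 := ih w hw
    have h5 : lev (f (x * y)) ≤ lev (f x) := by
      rw [map_mul, h.mul]; exact min_le_left _ _
    omega

theorem Layered.level (h : Layered S m lev) (f : S →ₙ* S) :
    ∀ k, ∀ x, lev x + k = m → lev (f x) = lev x := by
  intro k
  induction k with
  | zero =>
    intro x hx
    have h1 := h.chain_below f _ x rfl
    have h2 := h.le (f x)
    omega
  | succ k ih =>
    intro x hx
    have h1 := h.chain_below f _ x rfl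
    obtain ⟨z, hz⟩ := h.surj (lev x + 1) (by omega)
    obtain ⟨y, hy, hzy⟩ := h.inv z (by omega)
    have h2 := hzy x (by omega)
    have h3 : f (z * y) * f x = f x := by rw [← map_mul, h2]
    have h4 := h.absorb h3
    have h5 : lev (z * y) = lev x + 1 := by rw [h.mul]; omega
    have h6 := ih (z * y) (by omega)
    omega

/-- Layered semigroups have cancellative endomorphism semigroup. -/
theorem Layered.endCancel (h : Layered S m lev) : EndCancel S := by
  rw [endCancel_iff]
  intro f g k hx x
  have hl : ∀ (F : S →ₙ* S), lev (F x) = lev x := fun F =>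
    h.level F (m - lev x) x (by have := h.le x; omega)
  exact h.cancel _ _ _ ((hl f).trans (hl g).symm) ((hl f).trans (hl k).symm) (hx x)

end layers

end H91R2.EndCan
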