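import Pool.Agent.H91R2.EndCan.Homs

/-!
# From labelled graphs to families of triples
-/

namespace H91R2.EndCan

universe u

/-- A directed multigraph with vertex set `A` and edge set `I`, the edges labelled by naturals. -/
structure LGraph (A I : Type u) where
  lab : I → ℕ
  src : I → A
  tgt : I → A

variable {A A' I I' : Type u}

/-- Homomorphism of labelled multigraphs. -/
def IsLHom (L : LGraph A I) (L' : LGraph A' I') (f : A → A') (g : I → I') : Prop :=
  ∀ i, L'.lab (g i) = L.lab i ∧ L'.src (g i) = f (L.src i) ∧ L'.tgt (g i) = f (L.tgt i)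

/-- The family of triples attached to a labelled multigraph. -/
def fam (L : LGraph A I) : I ⊕ Option ℕ → (A ⊕ ℕ) × (A ⊕ ℕ) × (A ⊕ ℕ)
  | Sum.inl i => (Sum.inr (L.lab i), Sum.inl (L.src i), Sum.inl (L.tgt i))
  | Sum.inr (some n) => (Sum.inr n, Sum.inr n, Sum.inr (n + 1))
  | Sum.inr none => (Sum.inr 1, Sum.inr 0, Sum.inr 0)

/-- There is a loop with label `0` at each vertex. -/
def LGraph.Diag (L : LGraph A I) : Prop := ∀ a, ∃ i, L.lab i = 0 ∧ L.src i = a ∧ L.tgt i = a

/-- An edge is determined by label, source and target. -/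
def LGraph.Simple (L : LGraph A I) : Prop :=
  ∀ i j, L.lab i = L.lab j → L.src i = L.src j → L.tgt i = L.tgt j → i = j

/-- The identity is the only endomorphism. -/
def LGraph.Rigid (L : LGraph A I) : Prop := ∀ f g, IsLHom L L f g → f = id

theorem fam_injective {L : LGraph A I} (h : L.Simple) : Function.Injective (fam L) := by
  intro x y hxy
  rcases x with i | (_ | n) <;> rcases y with j | (_ | m)
  · simp only [fam, Prod.mk.injEq, Sum.inr.injEq, Sum.inl.injEq] at hxy
    rw [h i j hxy.1 hxy.2.1 hxy.2.2]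
  · simp [fam] at hxy
  · simp [fam] at hxy
  · simp [fam] at hxy
  · rfl
  · simp [fam] at hxy
  · simp [fam] at hxy
  · simp [fam] at hxy
  · simp [fam] at hxy
    rw [hxy]

theorem lhom_trip {L : LGraph A I} {L' : LGraph A' I'} {f : A → A'} {g : I → I'}
    (h : IsLHom L L' f g) : IsTripHom (fam L) (fam L') (Sum.map f id) (Sum.map g id) := by
  intro r
  rcases r with i | (_ | n)
  · simp [fam, h i]
  · simp [fam]
  · simp [fam]

theorem trip_lhom {L : LGraph A I} {L' : LGraph A' I'} (hd : L.Diag) {F : A ⊕ ℕ → A' ⊕ ℕ}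
    {G : I ⊕ Option ℕ → I' ⊕ Option ℕ} (h : IsTripHom (fam L) (fam L') F G) :
    ∃ f g, IsLHom L L' f g ∧ F = Sum.map f id := by
  have h1 : ∀ n : ℕ, ∃ m : ℕ, F (Sum.inr n) = Sum.inr m ∧ F (Sum.inr (n + 1)) = Sum.inr (m + 1) := by
    intro n
    have h2 := h (Sum.inr (some n))
    rcases hG : G (Sum.inr (some n)) with i | (_ | m)
    · rw [hG] at h2
      simp only [fam, Prod.mk.injEq] at h2
      have := h2.1.trans h2.2.1.symm
      simp at this
    · rw [hG] at h2
      simp only [fam, Prod.mk.injEq] at h2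
      have := h2.1.trans h2.2.1.symm
      simp at this
    · rw [hG] at h2
      simp only [fam, Prod.mk.injEq] at h2
      exact ⟨m, h2.1.symm, h2.2.2.symm⟩
  obtain ⟨c, hc, -⟩ := h1 0
  have h3 : ∀ n : ℕ, F (Sum.inr n) = Sum.inr (c + n) := by
    intro n
    induction n with
    | zero => exact hc
    | succ n ih =>
      obtain ⟨m, hm, hm'⟩ := h1 n
      rw [ih] at hm
      have : c + n = m := Sum.inr.inj hm
      rw [hm', ← this]
      rfl
  have hc0 : c = 0 := by
    have h2 := h (Sum.inr none)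
    rcases hG : G (Sum.inr none) with i | (_ | m)
    · rw [hG] at h2
      simp [fam, h3] at h2
    · rw [hG] at h2
      simp [fam, h3] at h2
      omega
    · rw [hG] at h2
      simp [fam, h3] at h2
      omega
  subst hc0
  have h4 : ∀ n : ℕ, F (Sum.inr n) = Sum.inr n := by
    intro n
    rw [h3, Nat.zero_add]
  have h5 : ∀ a, ∃ a', F (Sum.inl a) = Sum.inl a' := by
    intro a
    obtain ⟨i, hi0, hi1, hi2⟩ := hd a
    have h2 := h (Sum.inl i)
    rcases hG : G (Sum.inl i) with i' | (_ | m)
    · rw [hG] at h2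
      simp only [fam, Prod.mk.injEq, hi1] at h2
      exact ⟨_, h2.2.1.symm⟩
    · rw [hG] at h2
      simp only [fam, Prod.mk.injEq, hi0, h4] at h2
      have := Sum.inr.inj h2.1
      omega
    · rw [hG] at h2
      simp only [fam, Prod.mk.injEq, hi1, hi2] at h2
      have := Sum.inr.inj (h2.2.1.trans h2.2.2.symm)
      omega
  choose f hf using h5
  have h6 : ∀ i, ∃ i', L'.lab i' = L.lab i ∧ L'.src i' = f (L.src i) ∧
      L'.tgt i' = f (L.tgt i) := by
    intro i
    have h2 := h (Sum.inl i)
    rcases hG : G (Sum.inl i) with i' | (_ | m)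
    · rw [hG] at h2
      simp only [fam, Prod.mk.injEq, h4, hf, Sum.inr.injEq, Sum.inl.injEq] at h2
      exact ⟨i', h2⟩
    · rw [hG] at h2
      simp only [fam, Prod.mk.injEq, hf] at h2
      simp at h2
    · rw [hG] at h2
      simp only [fam, Prod.mk.injEq, hf] at h2
      simp at h2
  choose g hg using h6
  refine ⟨f, g, hg, ?_⟩
  funext y
  rcases y with a | n
  · exact hf a
  · exact h4 n

theorem rigid_iff {L : LGraph A I} (hd : L.Diag) :
    (∀ F G, IsTripHom (fam L) (fam L) F G → F = id) ↔ L.Rigid := by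
  constructor
  · intro h f g hfg
    have h1 := h _ _ (lhom_trip hfg)
    funext a
    have h2 := congrFun h1 (Sum.inl a)
    simpa using h2
  · intro h F G hFG
    obtain ⟨f, g, hfg, rfl⟩ := trip_lhom hd hFG
    rw [h f g hfg]
    exact Sum.map_id_id

/-- coding of labelled graphs -/
theorem coding_graph (L : LGraph A I) (hd : L.Diag) (hs : L.Simple) :
    (EndCancel (Sem (fam L)) ↔ L.Rigid) ∧ (EndPowers (Sem (fam L)) ↔ L.Rigid) := by
  have h := coding (Y := A ⊕ ℕ) (fam_injective hs)
  rw [rigid_iff hd] at h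
  exact h

theorem sem_fam_not_cancel (L : LGraph A I) : ¬ Cancel (Sem (fam L)) :=
  not_cancel (Sum.inr 0) (Sum.inr 1) (by simp)

end H91R2.EndCan
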