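import Pool.Agent.H91R2.EndCan.Tree

/-!
# Multiplication tables on `ℕ`
-/

namespace H91R2.EndCan

/-- `m` is the multiplication table of a commutative semigroup on `ℕ` -/
def IsCS (m : ℕ → ℕ → ℕ) : Prop := (∀ a b, m a b = m b a) ∧ ∀ a b c, m (m a b) c = m a (m b c)

/-- `f` is an endomorphism of the table `m` -/
def IsEndo (m : ℕ → ℕ → ℕ) (f : ℕ → ℕ) : Prop := ∀ a b, f (m a b) = m (f a) (f b)

/-- The tables on `ℕ` of the commutative semigroups whose endomorphism semigroup under pointwise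
multiplication is cancellative. -/
def CanTab : Set (ℕ → ℕ → ℕ) := {m | IsCS m ∧ ∀ f g h, IsEndo m f → IsEndo m g → IsEndo m h →
  (∀ x, m (f x) (g x) = m (f x) (h x)) → g = h}

/-- power in a table: `tpw m x n = x ^ (n + 1)` -/
def tpw (m : ℕ → ℕ → ℕ) (x : ℕ) : ℕ → ℕ
  | 0 => x
  | (n + 1) => m (tpw m x n) x

/-- All endomorphisms of `m` are power maps. -/
def OnlyPowers (m : ℕ → ℕ → ℕ) : Prop :=
  ∀ f, IsEndo m f → ∃ n, ∀ x, f x = tpw m x n

/-- `m` is cancellative. -/
def IsCancelTab (m : ℕ → ℕ → ℕ) : Prop := ∀ a b c, m a b = m a c → b = c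

section transfer

variable {S : Type} [CommSemigroup S] (κ : S ≃ ℕ)

/-- transported table -/
def tr (κ : S ≃ ℕ) : ℕ → ℕ → ℕ := fun a b => κ (κ.symm a * κ.symm b)

theorem tr_isCS : IsCS (tr κ) := by
  constructor
  · intro a b
    simp only [tr, mul_comm]
  · intro a b c
    simp only [tr, Equiv.symm_apply_apply, mul_assoc]

/-- transported endomorphism -/
def trHom {f : ℕ → ℕ} (hf : IsEndo (tr κ) f) : S →ₙ* S where
  toFun x := κ.symm (f (κ x))
  map_mul' x y := by
    have := hf (κ x) (κ y)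
    simp only [tr, Equiv.symm_apply_apply] at this
    rw [this, Equiv.symm_apply_apply]

theorem trHom_apply {f : ℕ → ℕ} (hf : IsEndo (tr κ) f) (x : S) :
    trHom κ hf x = κ.symm (f (κ x)) := rfl

theorem isEndo_of_hom (f : S →ₙ* S) : IsEndo (tr κ) (fun n => κ (f (κ.symm n))) := by
  intro a b
  simp only [tr, Equiv.symm_apply_apply, map_mul]

theorem tr_mem_canTab : tr κ ∈ CanTab ↔ EndCancel S := by
  rw [endCancel_iff]
  constructor
  · rintro ⟨-, h⟩ f g k hfg x
    have h1 := h _ _ _ (isEndo_of_hom κ f) (isEndo_of_hom κ g) (isEndo_of_hom κ k) (by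
      intro n
      simp only [tr, Equiv.symm_apply_apply]
      rw [hfg])
    have h2 := congrFun h1 (κ x)
    simp only [Equiv.symm_apply_apply] at h2
    exact κ.injective h2
  · intro h
    refine ⟨tr_isCS κ, fun f g k hf hg hk hfg => ?_⟩
    have h1 := h (trHom κ hf) (trHom κ hg) (trHom κ hk) (by
      intro x
      simp only [trHom_apply]
      apply κ.injective
      exact hfg (κ x))
    funext n
    have h2 := h1 (κ.symm n)
    simp only [trHom_apply, Equiv.apply_symm_apply] at h2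
    exact κ.symm.injective h2

theorem tpw_tr (x : S) (n : ℕ) : tpw (tr κ) (κ x) n = κ (pw x n) := by
  induction n with
  | zero => rfl
  | succ n ih =>
    show tr κ (tpw (tr κ) (κ x) n) (κ x) = κ (pw x n * x)
    rw [ih]
    simp [tr]

theorem tr_onlyPowers (h : EndPowers S) : OnlyPowers (tr κ) := by
  intro f hf
  obtain ⟨n, hn⟩ := h.1 (trHom κ hf)
  refine ⟨n, fun x => ?_⟩
  have h1 := hn (κ.symm x)
  rw [trHom_apply, Equiv.apply_symm_apply] at h1
  have h2 := tpw_tr κ (κ.symm x) n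
  rw [Equiv.apply_symm_apply, ← h1, Equiv.apply_symm_apply] at h2
  exact h2.symm

theorem tr_cancel (h : IsCancelTab (tr κ)) : Cancel S := by
  intro x y z hxyz
  have h1 := h (κ x) (κ y) (κ z) (by simp only [tr, Equiv.symm_apply_apply, hxyz])
  exact κ.injective h1

end transfer

/-- the common carrier -/
abbrev Ty : Type := {a : Pre (TA ⊕ ℕ) (TI ⊕ Option ℕ) // Valid a}

instance : Countable TI := by
  let f : TI → TA ⊕ List ℕ ⊕ Bool ⊕ ℕ ⊕ (ℕ × List ℕ) := fun i => match i with
    | TI.diag a => Sum.inl a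
    | TI.label s => Sum.inr (Sum.inl s)
    | TI.root b => Sum.inr (Sum.inr (Sum.inl b))
    | TI.cedge i => Sum.inr (Sum.inr (Sum.inr (Sum.inl i)))
    | TI.edge n s => Sum.inr (Sum.inr (Sum.inr (Sum.inr (n, s))))
  have hf : Function.Injective f := by
    intro i j h
    cases i <;> cases j <;> simp_all [f]
  exact hf.countable

instance : Infinite Ty := by
  let f : ℕ → Ty := fun n => ⟨(24 + n, none), by show 12 ≤ 24 + n ∧ 24 + n ≠ 21 ∧ 24 + n ≠ 22 ∧ 24 + n ≠ 23; omega⟩
  have hf : Function.Injective f := by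
    intro m n h
    have h1 : 24 + m = 24 + n := congrArg (fun z : Ty => z.1.1) h
    omega
  exact Infinite.of_injective f hf

theorem exists_equiv : Nonempty (Ty ≃ ℕ) := nonempty_equiv_of_countable

/-- a fixed numbering of the carrier -/
noncomputable def num : Ty ≃ ℕ := Classical.choice exists_equiv

/-- the semigroup attached to `W` -/
abbrev TS (W : Set (List ℕ)) : Type := Sem (fam (tg W))

/-- its numbering -/
noncomputable def numW (W : Set (List ℕ)) : TS W ≃ ℕ := num

/-- the table attached to `W` -/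
noncomputable def tab (W : Set (List ℕ)) : ℕ → ℕ → ℕ := tr (numW W)

theorem TS_endCancel (W : Set (List ℕ)) : EndCancel (TS W) ↔ ¬ ∃ y, IsBranch W y := by
  rw [(coding_graph (tg W) tg_diag tg_simple).1, tg_rigid_iff]

theorem TS_endPowers (W : Set (List ℕ)) : EndPowers (TS W) ↔ ¬ ∃ y, IsBranch W y := by
  rw [(coding_graph (tg W) tg_diag tg_simple).2, tg_rigid_iff]

theorem tab_isCS (W : Set (List ℕ)) : IsCS (tab W) := tr_isCS _

theorem tab_mem (W : Set (List ℕ)) : tab W ∈ CanTab ↔ ¬ ∃ y, IsBranch W y := by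
  unfold tab
  rw [tr_mem_canTab, TS_endCancel]

theorem tab_onlyPowers (W : Set (List ℕ)) (h : ¬ ∃ y, IsBranch W y) : OnlyPowers (tab W) :=
  tr_onlyPowers _ ((TS_endPowers W).mpr h)

theorem tab_not_cancel (W : Set (List ℕ)) : ¬ IsCancelTab (tab W) :=
  fun h => sem_fam_not_cancel (tg W) (tr_cancel _ h)

theorem tab_no_idem (W : Set (List ℕ)) (n : ℕ) : tab W n n ≠ n := by
  intro h
  have h1 : (numW W).symm n * (numW W).symm n = (numW W).symm n := by
    apply (numW W).injective
    rw [Equiv.apply_symm_apply]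
    exact h
  have h2 := congrArg Sem.deg h1
  rw [Sem.deg_mul] at h2
  have h3 := Sem.deg_pos ((numW W).symm n)
  omega

/-- the sequence on which an edge depends -/
def sig : TI ⊕ Option ℕ → List ℕ
  | Sum.inl (TI.edge n s) => n :: s
  | _ => []

theorem fam_congr {W W' : Set (List ℕ)} (r : TI ⊕ Option ℕ) (h : sig r ∈ W ↔ sig r ∈ W') :
    fam (tg W) r = fam (tg W') r := by
  rcases r with i | (_ | n)
  · cases i
    case edge n s =>
      have h' : n :: s ∈ W ↔ n :: s ∈ W' := h
      have hlab : (tg W).lab (TI.edge n s) = (tg W').lab (TI.edge n s) := by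
        by_cases h0 : n :: s ∈ W
        · have h1 : (tg W).lab (TI.edge n s) = 1 := if_pos h0
          have h2 : (tg W').lab (TI.edge n s) = 1 := if_pos (h'.mp h0)
          rw [h1, h2]
        · have h1 : (tg W).lab (TI.edge n s) = 2 := if_neg h0
          have h2 : (tg W').lab (TI.edge n s) = 2 := if_neg (fun h3 => h0 (h'.mpr h3))
          rw [h1, h2]
      show (Sum.inr ((tg W).lab (TI.edge n s)), _, _) = (Sum.inr ((tg W').lab (TI.edge n s)), _, _)
      rw [hlab]
      rfl
    all_goals rfl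
  · rfl
  · rfl

/-- the sequence on which a payload depends -/
def sigw : Option ((TA ⊕ ℕ) ⊕ (TI ⊕ Option ℕ)) → List ℕ
  | some (Sum.inr r) => sig r
  | _ => []

theorem proj_congr {W W' : Set (List ℕ)} (w : Option ((TA ⊕ ℕ) ⊕ (TI ⊕ Option ℕ)))
    (h : sigw w ∈ W ↔ sigw w ∈ W') (j : ℕ) :
    w.map (proj (fam (tg W)) j) = w.map (proj (fam (tg W')) j) := by
  rcases w with _ | (y | r)
  · rfl
  · rfl
  · show some (Sum.inl (coord j (fam (tg W) r))) = some (Sum.inl (coord j (fam (tg W') r)))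
    rw [fam_congr r h]

open Classical in
/-- the sequence on which a product depends -/
noncomputable def sigp (a b : Pre (TA ⊕ ℕ) (TI ⊕ Option ℕ)) : List ℕ :=
  if a.1 = 9 ∧ 12 ≤ b.1 ∧ b.1 ≤ 14 then sigw a.2 else sigw b.2

theorem pay_congr {W W' : Set (List ℕ)} (a b : Pre (TA ⊕ ℕ) (TI ⊕ Option ℕ))
    (h : sigp a b ∈ W ↔ sigp a b ∈ W') : pay (fam (tg W)) a b = pay (fam (tg W')) a b := by
  unfold pay
  by_cases c1 : a.1 = 8 ∧ 13 ≤ b.1 ∧ b.1 ≤ 15
  · rw [if_pos c1, if_pos c1]
  rw [if_neg c1, if_neg c1]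
  by_cases c2 : b.1 = 8 ∧ 13 ≤ a.1 ∧ a.1 ≤ 15
  · rw [if_pos c2, if_pos c2]
  rw [if_neg c2, if_neg c2]
  by_cases c3 : a.1 = 9 ∧ 12 ≤ b.1 ∧ b.1 ≤ 14
  · rw [if_pos c3, if_pos c3]
    apply proj_congr
    have : sigp a b = sigw a.2 := if_pos c3
    rwa [this] at h
  rw [if_neg c3, if_neg c3]
  by_cases c4 : b.1 = 9 ∧ 12 ≤ a.1 ∧ a.1 ≤ 14
  · rw [if_pos c4, if_pos c4]
    apply proj_congr
    have : sigp a b = sigw b.2 := if_neg c3
    rwa [this] at h
  rw [if_neg c4, if_neg c4]

theorem tab_congr {W W' : Set (List ℕ)} (m n : ℕ)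
    (h : sigp (num.symm m).1 (num.symm n).1 ∈ W ↔ sigp (num.symm m).1 (num.symm n).1 ∈ W') :
    tab W m n = tab W' m n := by
  have h1 : ∀ V : Set (List ℕ), tab V m n =
      num ⟨((num.symm m).1.1 + (num.symm n).1.1, pay (fam (tg V)) (num.symm m).1 (num.symm n).1),
        valid_mul (num.symm m).2 (num.symm n).2⟩ := fun V => rfl
  rw [h1, h1]
  congr 1
  apply Subtype.ext
  exact Prod.ext rfl (pay_congr _ _ h)

/-- Continuity of the construction. -/
theorem continuous_tab {X : Type} [TopologicalSpace X] (W : X → Set (List ℕ))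
    (hW : ∀ s, IsClopen {x | s ∈ W x}) : Continuous (fun x => tab (W x)) := by
  refine continuous_pi fun m => continuous_pi fun n => ?_
  set s := sigp (num.symm m).1 (num.symm n).1 with hs
  rw [continuous_discrete_rng]
  intro b
  have h1 : ∀ x, s ∈ W x → tab (W x) m n = tab Set.univ m n := fun x hx =>
    tab_congr m n ⟨fun _ => trivial, fun _ => hx⟩
  have h2 : ∀ x, s ∉ W x → tab (W x) m n = tab ∅ m n := fun x hx =>
    tab_congr m n ⟨fun h => absurd h hx, fun h => h.elim⟩
  have h3 : (fun x => tab (W x) m n) ⁻¹' {b} =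
      ({x | s ∈ W x} ∩ {_x | tab Set.univ m n = b}) ∪ ({x | s ∈ W x}ᶜ ∩ {_x | tab ∅ m n = b}) := by
    ext x
    by_cases hx : s ∈ W x
    · simp [h1 x hx, hx]
    · simp [h2 x hx, hx]
  rw [h3]
  refine IsOpen.union ((hW s).isOpen.inter ?_) ((hW s).compl.isOpen.inter ?_)
  · exact isOpen_const
  · exact isOpen_const

end H91R2.EndCan
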