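import Pool.Agent.H91R2.EndCan.Struct

/-!
# Labelled graphs attached to sets of finite sequences
-/

namespace H91R2.EndCan

/-- `path y n = [y (n-1), ..., y 0]`. -/
def path (y : ℕ → ℕ) : ℕ → List ℕ
  | 0 => []
  | (n + 1) => y n :: path y n

/-- `y` is an infinite branch of `W`. -/
def IsBranch (W : Set (List ℕ)) (y : ℕ → ℕ) : Prop := ∀ n, path y (n + 1) ∈ W

abbrev TA := List ℕ ⊕ ℕ

/-- edges -/
inductive TI : Type
  | diag (a : TA)
  | label (s : List ℕ)
  | root (b : Bool)
  | cedge (i : ℕ)
  | edge (n : ℕ) (s : List ℕ)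

open Classical in
/-- the labelled graph of `W` -/
noncomputable def tg (W : Set (List ℕ)) : LGraph TA TI where
  lab
    | TI.diag _ => 0
    | TI.label s => 4 + Encodable.encode s
    | TI.root _ => 3
    | TI.cedge _ => 1
    | TI.edge n s => if n :: s ∈ W then 1 else 2
  src
    | TI.diag a => a
    | TI.label s => Sum.inl s
    | TI.root b => if b then Sum.inr 0 else Sum.inl []
    | TI.cedge i => Sum.inr i
    | TI.edge _ s => Sum.inl s
  tgt
    | TI.diag a => a
    | TI.label s => Sum.inl s
    | TI.root b => if b then Sum.inr 0 else Sum.inl []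
    | TI.cedge i => Sum.inr (i + 1)
    | TI.edge n s => Sum.inl (n :: s)

variable {W : Set (List ℕ)}

theorem tg_diag : (tg W).Diag := fun a => ⟨TI.diag a, rfl, rfl, rfl⟩

theorem tg_lab_edge (n : ℕ) (s : List ℕ) :
    (tg W).lab (TI.edge n s) = 1 ∧ n :: s ∈ W ∨ (tg W).lab (TI.edge n s) = 2 ∧ n :: s ∉ W := by
  by_cases h : n :: s ∈ W
  · left; exact ⟨if_pos h, h⟩
  · right; exact ⟨if_neg h, h⟩

theorem tg_simple : (tg W).Simple := by
  intro i j h1 h2 h3
  cases i <;> cases j
  case diag.diag a b => exact congrArg TI.diag h2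
  case label.label s t => exact congrArg TI.label (Sum.inl.inj h2)
  case root.root b c =>
    cases b <;> cases c
    · rfl
    · simp [tg] at h2
    · simp [tg] at h2
    · rfl
  case cedge.cedge i j => exact congrArg TI.cedge (Sum.inr.inj h2)
  case edge.edge n s m t =>
    have h4 : s = t := Sum.inl.inj h2
    have h5 : n :: s = m :: t := Sum.inl.inj h3
    rw [h4] at h5 ⊢
    rw [(List.cons.inj h5).1]
  case diag.label a s => have : 0 = 4 + Encodable.encode s := h1; omega
  case diag.root a b => have : 0 = 3 := h1; omega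
  case diag.cedge a i => have : 0 = 1 := h1; omega
  case diag.edge a n s =>
    have h0 : (tg W).lab (TI.diag a) = 0 := rfl
    rcases tg_lab_edge (W := W) n s with h | h <;> omega
  case label.diag s a => have : 4 + Encodable.encode s = 0 := h1; omega
  case label.root s b => have : 4 + Encodable.encode s = 3 := h1; omega
  case label.cedge s i => have : 4 + Encodable.encode s = 1 := h1; omega
  case label.edge t n s =>
    have h0 : (tg W).lab (TI.label t) = 4 + Encodable.encode t := rfl
    rcases tg_lab_edge (W := W) n s with h | h <;> omega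
  case root.diag b a => have : 3 = 0 := h1; omega
  case root.label b s => have : 3 = 4 + Encodable.encode s := h1; omega
  case root.cedge b i => have : 3 = 1 := h1; omega
  case root.edge b n s =>
    have h0 : (tg W).lab (TI.root b) = 3 := rfl
    rcases tg_lab_edge (W := W) n s with h | h <;> omega
  case cedge.diag i a => have : 1 = 0 := h1; omega
  case cedge.label i s => have : 1 = 4 + Encodable.encode s := h1; omega
  case cedge.root i b => have : 1 = 3 := h1; omega
  case cedge.edge i n s =>
    have h0 : (Sum.inr i : TA) = Sum.inl s := h2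
    simp at h0
  case edge.diag n s a =>
    have h0 : (tg W).lab (TI.diag a) = 0 := rfl
    rcases tg_lab_edge (W := W) n s with h | h <;> omega
  case edge.label n s t =>
    have h0 : (tg W).lab (TI.label t) = 4 + Encodable.encode t := rfl
    rcases tg_lab_edge (W := W) n s with h | h <;> omega
  case edge.root n s b =>
    have h0 : (tg W).lab (TI.root b) = 3 := rfl
    rcases tg_lab_edge (W := W) n s with h | h <;> omega
  case edge.cedge n s i =>
    have h0 : (Sum.inl s : TA) = Sum.inr i := h2
    simp at h0

/-- edges of label one -/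
theorem tg_lab_one {i : TI} (h : (tg W).lab i = 1) : (∃ j, i = TI.cedge j) ∨
    ∃ n s, i = TI.edge n s ∧ n :: s ∈ W := by
  cases i
  case diag a => have : 0 = 1 := h; omega
  case label s => have : 4 + Encodable.encode s = 1 := h; omega
  case root b => have : 3 = 1 := h; omega
  case cedge j => exact Or.inl ⟨j, rfl⟩
  case edge n s =>
    rcases tg_lab_edge (W := W) n s with h' | h'
    · exact Or.inr ⟨n, s, rfl, h'.2⟩
    · omega

theorem tg_lab_three {i : TI} (h : (tg W).lab i = 3) : ∃ b, i = TI.root b := by
  cases i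
  case diag a => have : 0 = 3 := h; omega
  case label s => have : 4 + Encodable.encode s = 3 := h; omega
  case root b => exact ⟨b, rfl⟩
  case cedge j => have : 1 = 3 := h; omega
  case edge n s => rcases tg_lab_edge (W := W) n s with h' | h' <;> omega

theorem tg_lab_label {i : TI} {s : List ℕ} (h : (tg W).lab i = 4 + Encodable.encode s) :
    i = TI.label s := by
  cases i
  case diag a => have : 0 = 4 + Encodable.encode s := h; omega
  case label t =>
    have h1 : 4 + Encodable.encode t = 4 + Encodable.encode s := h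
    have h2 : Encodable.encode t = Encodable.encode s := by omega
    rw [Encodable.encode_injective h2]
  case root b => have : 3 = 4 + Encodable.encode s := h; omega
  case cedge j => have : 1 = 4 + Encodable.encode s := h; omega
  case edge n s' => rcases tg_lab_edge (W := W) n s' with h' | h' <;> omega

theorem tg_rigid_of (h : ¬ ∃ y, IsBranch W y) : (tg W).Rigid := by
  intro f g hfg
  have h1 : ∀ s, f (Sum.inl s) = Sum.inl s := by
    intro s
    obtain ⟨h2, h3, -⟩ := hfg (TI.label s)
    have h4 := tg_lab_label h2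
    rw [h4] at h3
    exact h3.symm
  have h2 : f (Sum.inr 0) = Sum.inr 0 ∨ f (Sum.inr 0) = Sum.inl [] := by
    obtain ⟨h2, h3, -⟩ := hfg (TI.root true)
    obtain ⟨b, hb⟩ := tg_lab_three h2
    rw [hb] at h3
    have h5 : (tg W).src (TI.root true) = Sum.inr 0 := rfl
    rw [h5] at h3
    cases b
    · right; exact h3.symm
    · left; exact h3.symm
  have h3 : ∀ i, (∃ j, Sum.inr j = f (Sum.inr i) ∧ Sum.inr (j + 1) = f (Sum.inr (i + 1))) ∨
      ∃ n s, n :: s ∈ W ∧ Sum.inl s = f (Sum.inr i) ∧ Sum.inl (n :: s) = f (Sum.inr (i + 1)) := by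
    intro i
    obtain ⟨h3, h4, h5⟩ := hfg (TI.cedge i)
    rcases tg_lab_one h3 with ⟨j, hj⟩ | ⟨n, s, hj, hn⟩
    · rw [hj] at h4 h5
      exact Or.inl ⟨j, h4, h5⟩
    · rw [hj] at h4 h5
      exact Or.inr ⟨n, s, hn, h4, h5⟩
  rcases h2 with h2 | h2
  · have h4 : ∀ i, f (Sum.inr i) = Sum.inr i := by
      intro i
      induction i with
      | zero => exact h2
      | succ i ih =>
        rcases h3 i with ⟨j, h5, h6⟩ | ⟨n, s, hn, h5, h6⟩
        · rw [ih] at h5
          rw [← h6, Sum.inr.inj h5]
        · rw [ih] at h5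
          simp at h5
    funext a
    rcases a with s | i
    · exact h1 s
    · exact h4 i
  · exfalso
    have h4 : ∀ i, ∃ s, f (Sum.inr i) = Sum.inl s := by
      intro i
      induction i with
      | zero => exact ⟨_, h2⟩
      | succ i ih =>
        obtain ⟨s, hs⟩ := ih
        rcases h3 i with ⟨j, h5, h6⟩ | ⟨n, s', hn, h5, h6⟩
        · rw [hs] at h5
          simp at h5
        · exact ⟨_, h6.symm⟩
    choose σ hσ using h4
    have h5 : ∀ i, ∃ n, n :: σ i ∈ W ∧ σ (i + 1) = n :: σ i := by
      intro i
      rcases h3 i with ⟨j, h5, h6⟩ | ⟨n, s', hn, h5, h6⟩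
      · rw [hσ] at h5
        simp at h5
      · rw [hσ] at h5 h6
        have h7 := Sum.inl.inj h5
        have h8 := Sum.inl.inj h6
        rw [h7] at hn h8
        exact ⟨n, hn, h8.symm⟩
    choose y hy hy' using h5
    have h6 : ∀ i, σ i = path y i := by
      intro i
      induction i with
      | zero => rw [hσ] at h2; exact Sum.inl.inj h2
      | succ i ih => rw [hy', ih]; rfl
    apply h
    refine ⟨y, fun n => ?_⟩
    have := hy n
    rw [h6] at this
    exact this

theorem not_tg_rigid {y : ℕ → ℕ} (hy : IsBranch W y) : ¬ (tg W).Rigid := by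
  intro h
  let f : TA → TA := fun a => match a with
    | Sum.inl s => Sum.inl s
    | Sum.inr k => Sum.inl (path y k)
  let g : TI → TI := fun i => match i with
    | TI.diag a => TI.diag (f a)
    | TI.label s => TI.label s
    | TI.root _ => TI.root false
    | TI.cedge i => TI.edge (y i) (path y i)
    | TI.edge n s => TI.edge n s
  have hfg : IsLHom (tg W) (tg W) f g := by
    intro i
    cases i
    case diag a => exact ⟨rfl, rfl, rfl⟩
    case label s => exact ⟨rfl, rfl, rfl⟩
    case root b => cases b <;> exact ⟨rfl, rfl, rfl⟩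
    case cedge i =>
      refine ⟨?_, rfl, rfl⟩
      show (tg W).lab (TI.edge (y i) (path y i)) = 1
      have := hy i
      rcases tg_lab_edge (W := W) (y i) (path y i) with h' | h'
      · exact h'.1
      · exact absurd this h'.2
    case edge n s => exact ⟨rfl, rfl, rfl⟩
  have h1 := congrFun (h f g hfg) (Sum.inr 0)
  have h2 : (Sum.inl [] : TA) = Sum.inr 0 := h1
  simp at h2

theorem tg_rigid_iff : (tg W).Rigid ↔ ¬ ∃ y, IsBranch W y :=
  ⟨fun h ⟨_, hy⟩ => not_tg_rigid hy h, tg_rigid_of⟩

end H91R2.EndCan
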